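import Pool.Agent.U587.EV.Fin

set_option autoImplicit false

/-!
# Real linear forms with a dense image of the lattice: unrestricted boxes, every time, no exceptional set

Let `τ_1, ..., τ_n` be measurable measure preserving flows on a probability space `(X, μ)`, with NO relation between
them, `L_1, ..., L_n` real linear forms in `k` variables and `f_1, ..., f_n` in `L^∞`. `A_M(x)` is the average of
`∏ f_j(τ_j(L_j(m)) x)` over the box `m ∈ [1, M_1] × ... × [1, M_k]`; all limits are for `min M_i → ∞`, with no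
restriction on the shape of the boxes. With `T_{ji} = τ_j(c_{ji})`, `L_j(m) = ∑ c_{ji} m_i`, these are the averages of
the problem for the exponents `T_{ji}^(m_i)` (in the group generated by the `T_{ji}` if the flows commute; here they
need not). In contrast to the starting results `GenericLinearForms`, `GenericFactor`, `OneLinearForm` (almost every
time or almost every choice of the coefficients) the coefficients are fixed, and there is no exceptional set of times.

1. Decoupling. Let `R` be a set of shifts `r ∈ ℤ^k` and `J` a set of indices such that the closure of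
   `{(L_1(r), ..., L_n(r)) : r ∈ R}` contains the coordinate axis of every `j ∈ J`. For almost every `x`, for ALL bounded
   weights `w(z)`, `z ∈ ℤ^k`, invariant under the shifts in `R`, the averages of
   `w(m) (∏ f_j(τ_j(L_j(m)) x) - ∏_{j ∈ J} E(f_j|τ_j)(x) ∏_{j ∉ J} f_j(τ_j(L_j(m)) x))` tend to `0`. The null set does
   not depend on `w`: the weights may depend on `x` in any way, for example `w(m) = ∏ g_i(S_i(m) x)` for arbitrary
   maps `S_i(m)` which depend only on variables which do not occur in `R`.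
2. If `{(L_1(r), ..., L_n(r)) : r ∈ ℤ^k}` is dense in `ℝ^n`, then `A_M → ∏ E(f_j|τ_j)` almost everywhere
   (for example, `k = n + 1` and `L_j(m) = m_j + θ_j m_(n+1)`, for rationally independent `1, θ_1, ..., θ_n`).
3. Comparison. If `{L(r) : r ∈ ℤ^k}` is dense in the subspace `{L(y) : y ∈ ℝ^k}`, `L = (L_1, ..., L_n)`, then
   `A_M(x)` and the continuous average of `∏ f_j(τ_j(L_j(y)) x)` over `y ∈ (0, M_1] × ... × (0, M_k]` have difference
   tending to `0`, for almost every `x`.
4. One form. Let `L_j = L = c_1 m_1 + ... + c_k m_k` for all `j`, `c_i > 0`, not all ratios `c_i / c_l` rational. For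
   almost every `x`, for all `ℓ`: `A_M(x) → ℓ` if and only if `(1/V) ∫_0^V ∏ f_j(τ_j(v) x) dv → ℓ`. So at EVERY time the
   unrestricted multi-parameter problem along an irrational form is the same, point by point, as the one parameter
   problem for the flows (different speeds are allowed: replace `τ_j(t)` by `τ_j(s_j t)`), for all irrational forms.

Proof. For a fixed `x` and functions which are Lipschitz along the flows, `A_M` changes by `O(∑ |r_i| / M_i)` when the
box is shifted by `r`, hence it is asymptotically invariant under shifts of the arguments `L(m)` by vectors of the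
closure of `{L(r)}`; averaging over such shifts replaces the factors by their averages over `[0, S]` along the flow
(1, 2), the sum by an integral over the box (3), or by averages over long intervals (4). The errors are controlled by
the averages of ONE nonnegative function, for which unrestricted averages converge almost everywhere at every time
(iteration, as in Dunford's and Zygmund's theorem), and by the ergodic theorem for flows.
-/

namespace Pool.Agent.Results.MP_f720ae_an.EveryTimeDenseForms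

open MeasureTheory Filter Finset

universe u

/-- a measurable measure preserving flow -/
structure IsFlow {X : Type u} [MeasurableSpace X] (μ : Measure X) (τ : ℝ → X → X) : Prop where
  meas : Measurable (fun p : ℝ × X => τ p.1 p.2)
  zero : ∀ x, τ 0 x = x
  add : ∀ s t x, τ (s + t) x = τ s (τ t x)
  mp : ∀ t, MeasurePreserving (τ t) μ μ

/-- `f` is in `L^∞` -/
def EssBdd {X : Type u} [MeasurableSpace X] (μ : Measure X) (f : X → ℂ) : Prop :=
  AEStronglyMeasurable f μ ∧ ∃ C : ℝ, ∀ᵐ x ∂μ, ‖f x‖ ≤ C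

/-- the conditional expectation on the sets invariant under the flow -/
noncomputable def inv {X : Type u} [MeasurableSpace X] (μ : Measure X) (τ : ℝ → X → X) (f : X → ℂ) : X → ℂ :=
  μ[f | ⨅ t : ℝ, MeasurableSpace.invariants (τ t)]

/-- the average over the box `[1, M_1] × ... × [1, M_k]` -/
noncomputable def avg {k : ℕ} (M : Fin k → ℕ) (h : (Fin k → ℕ) → ℂ) : ℂ :=
  (1 / ((∏ l, M l : ℕ) : ℂ)) * ∑ m ∈ Fintype.piFinset (fun l => Icc 1 (M l)), h m

/-- the value `c_1 y_1 + ... + c_k y_k` of a linear form -/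
noncomputable def form {k : ℕ} (c : Fin k → ℝ) (y : Fin k → ℝ) : ℝ := ∑ i, c i * y i

/-- the point `m ∈ ℕ^k` of `ℝ^k` -/
def pt {k : ℕ} (m : Fin k → ℕ) : Fin k → ℝ := fun i => (m i : ℝ)

/-- the point `r ∈ ℤ^k` of `ℝ^k` -/
def pz {k : ℕ} (r : Fin k → ℤ) : Fin k → ℝ := fun i => (r i : ℝ)

/-- **Every time, linear forms with a dense image of the lattice, unrestricted boxes.** -/
theorem result (X : Type u) [MeasurableSpace X] (μ : Measure X) [IsProbabilityMeasure μ] (n k : ℕ)
    (τ : Fin n → ℝ → X → X) (hτ : ∀ j, IsFlow μ (τ j)) (f : Fin n → X → ℂ) (hf : ∀ j, EssBdd μ (f j)) :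
    (∀ (C : Fin n → Fin k → ℝ) (R : Set (Fin k → ℤ)) (J : Finset (Fin n)),
      (∀ j ∈ J, ∀ s ε : ℝ, 0 < ε → ∃ r ∈ R, |form (C j) (pz r) - s| < ε ∧ ∀ l, l ≠ j → |form (C l) (pz r)| < ε) →
      ∀ᵐ x ∂μ, ∀ w : (Fin k → ℤ) → ℂ, (∃ K : ℝ, ∀ z, ‖w z‖ ≤ K) → (∀ r ∈ R, ∀ z, w (z + r) = w z) →
        Tendsto (fun M : Fin k → ℕ => avg M fun m => w (fun i => (m i : ℤ)) *
          (∏ j, f j (τ j (form (C j) (pt m)) x) -
            (∏ j ∈ J, inv μ (τ j) (f j) x) * ∏ j ∈ Jᶜ, f j (τ j (form (C j) (pt m)) x))) atTop (nhds 0)) ∧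
    (∀ C : Fin n → Fin k → ℝ,
      (∀ (t : Fin n → ℝ) (ε : ℝ), 0 < ε → ∃ r : Fin k → ℤ, ∀ j, |form (C j) (pz r) - t j| < ε) →
      ∀ᵐ x ∂μ, Tendsto (fun M : Fin k → ℕ => avg M fun m => ∏ j, f j (τ j (form (C j) (pt m)) x)) atTop
        (nhds (∏ j, inv μ (τ j) (f j) x))) ∧
    (∀ C : Fin n → Fin k → ℝ,
      (∀ (y : Fin k → ℝ) (ε : ℝ), 0 < ε → ∃ r : Fin k → ℤ, ∀ j, |form (C j) (pz r) - form (C j) y| < ε) →
      ∀ᵐ x ∂μ, Tendsto (fun M : Fin k → ℕ => (avg M fun m => ∏ j, f j (τ j (form (C j) (pt m)) x)) -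
        (1 / ((∏ l, M l : ℕ) : ℂ)) * ∫ y in Set.pi Set.univ (fun i => Set.Ioc (0 : ℝ) (M i)),
          ∏ j, f j (τ j (form (C j) y) x)) atTop (nhds 0)) ∧
    (∀ c : Fin k → ℝ, (∀ i, 0 < c i) → (∃ i l, Irrational (c i / c l)) →
      ∀ᵐ x ∂μ, ∀ L : ℂ,
        (Tendsto (fun M : Fin k → ℕ => avg M fun m => ∏ j, f j (τ j (form c (pt m)) x)) atTop (nhds L) ↔
          Tendsto (fun V : ℝ => (1 / (V : ℂ)) * ∫ v in (0 : ℝ)..V, ∏ j, f j (τ j v x)) atTop (nhds L))) := by
  classical
  have hτ' : ∀ j, Pool.Agent.Y957.MC.IsFlow μ (τ j) := fun j => ⟨(hτ j).meas, (hτ j).zero, (hτ j).add, (hτ j).mp⟩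
  have h1 : ∀ (C : Fin n → Fin k → ℝ) (R : Set (Fin k → ℤ)) (J : Finset (Fin n)),
      (∀ j ∈ J, ∀ s ε : ℝ, 0 < ε → ∃ r ∈ R, |form (C j) (pz r) - s| < ε ∧ ∀ l, l ≠ j → |form (C l) (pz r)| < ε) →
      ∀ᵐ x ∂μ, ∀ w : (Fin k → ℤ) → ℂ, (∃ K : ℝ, ∀ z, ‖w z‖ ≤ K) → (∀ r ∈ R, ∀ z, w (z + r) = w z) →
        Tendsto (fun M : Fin k → ℕ => avg M fun m => w (fun i => (m i : ℤ)) *
          (∏ j, f j (τ j (form (C j) (pt m)) x) -
            (∏ j ∈ J, inv μ (τ j) (f j) x) * ∏ j ∈ Jᶜ, f j (τ j (form (C j) (pt m)) x))) atTop (nhds 0) := by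
    intro C R J hR
    have key := Pool.Agent.U587.EV.dec_gen (μ := μ) hτ' (C := C) (R := R) (J := J) (fun j0 hj0 s ε hε => by
      obtain ⟨r, hrR, hr1, hr2⟩ := hR j0 hj0 s ε hε
      refine ⟨r, hrR, fun j => ?_⟩
      by_cases hj : j = j0
      · subst hj
        rw [Pi.single_eq_same]
        exact hr1
      · rw [Pi.single_eq_of_ne hj, sub_zero]
        exact hr2 j hj) (fun j => (hf j).1) (fun j => (hf j).2)
    filter_upwards [key] with x hx w hw hwR
    refine (hx w hw hwR).congr fun M => ?_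
    show avg M (fun m => _) = avg M (fun m => _)
    congr 1
    funext m
    have e : ∏ j, (if j ∈ J then (μ[f j | Pool.Agent.Y957.MC.flowInv (τ j)]) x else
        f j (τ j (Pool.Agent.Y957.MC.lin (C j) m) x)) =
        (∏ j ∈ J, inv μ (τ j) (f j) x) * ∏ j ∈ Jᶜ, f j (τ j (form (C j) (pt m)) x) := by
      rw [← prod_mul_prod_compl J]
      congr 1
      · exact prod_congr rfl fun j hj => by rw [if_pos hj]; rfl
      · exact prod_congr rfl fun j hj => by rw [if_neg (mem_compl.1 hj)]; rfl
    rw [e]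
    rfl
  refine ⟨h1, ?_, ?_, ?_⟩
  · intro C hC
    filter_upwards [h1 C Set.univ univ fun j _ s ε hε => by
      obtain ⟨r, hr⟩ := hC (Pi.single j s) ε hε
      refine ⟨r, Set.mem_univ _, ?_, fun l hl => ?_⟩
      · have := hr j
        rwa [Pi.single_eq_same] at this
      · have := hr l
        rwa [Pi.single_eq_of_ne hl, sub_zero] at this] with x hx
    have h2 := hx (fun _ => 1) ⟨1, fun _ => by simp⟩ (fun _ _ _ => rfl)
    have h3 := h2.add_const (∏ j, inv μ (τ j) (f j) x)
    rw [zero_add] at h3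
    refine h3.congr' ?_
    filter_upwards [eventually_ge_atTop (fun _ : Fin k => 1)] with M hM
    have hN : ((∏ l, M l : ℕ) : ℂ) ≠ 0 := by
      have : 0 < ∏ l, M l := prod_pos fun l _ => hM l
      exact_mod_cast this.ne'
    simp only [one_mul, compl_univ, prod_empty, mul_one]
    unfold avg
    rw [sum_sub_distrib, mul_sub, sum_const, Fintype.card_piFinset]
    simp only [Nat.card_Icc, Nat.add_sub_cancel, nsmul_eq_mul]
    rw [← mul_assoc, one_div_mul_cancel hN, one_mul, sub_add_cancel]
  · intro C hC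
    exact Pool.Agent.U587.EV.cmp_box (μ := μ) hτ' (C := C) hC (fun j => (hf j).1) (fun j => (hf j).2)
  · intro c hc hirr
    exact Pool.Agent.U587.EV.one_form (μ := μ) hτ' hc hirr (fun j => (hf j).1) (fun j => (hf j).2)

end Pool.Agent.Results.MP_f720ae_an.EveryTimeDenseForms
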