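import Pool.Agent.U587.BX.Sq

set_option autoImplicit false

/-!
# Averages over unrestricted boxes: all times outside a set of Hausdorff dimension less than one

Let `τ_1, ..., τ_r` be measurable measure preserving flows on a separable probability space `(X, μ)`, with NO relation
between them, and `k, d ≥ 1`. There is ONE set `D` of real numbers, of Hausdorff dimension at most `1 - 1 / (8 d)`, such
that for ALL real `a` outside of `D`, with `T_j = τ_j(a)`, the following is true for all integer polynomials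
`p_j(m) = p_{j,1}(m_1) + ... + p_{j,k}(m_k)`, where `p_{j,1}, ..., p_{j,k}` have the same degree `e_j` in `[1, d]` and
`e_1, ..., e_r` are distinct, and for all `f_1, ..., f_r` in `L^∞`. The averages over the boxes
`[1, M_1] × ... × [1, M_k]` of `∏ f_j(T_j^(p_j(m)) x)` converge, as `min M_l → ∞`, without any restriction on the shape of
the boxes, to the product of the conditional expectations of the `f_j` on the invariant sets of the flows: in `L²(μ)`,
and for almost every `x` if the `T_j` satisfy the pointwise ergodic theorem for one function along integer polynomials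
of one variable (this is a theorem of Bourgain, for every `a`). Second part: real polynomials and arbitrary bounded
weights `W_m(x)`.

The starting result `DistinctDegreesBoxes` has almost every `a` in place of all `a` outside of `D`, and the null set
there depends on the functions and on the polynomials.

Proof. By the starting library, for boxes with sides `(t_l + 1)^(8(k+1))` and longest side in the direction `i`, the mean
square over `a ∈ [1, 2]` and `x` of the averages, with the factor of highest degree a smooth coboundary and the other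
ones Lipschitz along their flows, is `O((t_i + 1)^(-k-1))`. For the boxes with `t_l + 1 = (u_l + 1)^q` and `u_i = U` the
sum of the mean squares over `x` is Lipschitz in `a` with constant `O(U^(8(k+1)dq+k))`, and its integral over `a` is
`O(U^(k-(k+1)q))`; a covering argument with `q → ∞` gives the dimension `1 - (k+1)/(8(k+1)d)`. A countable family of such
functions is dense in `L¹`; at a fixed time the error of the approximation is controlled in the mean by invariance of
the measure, and almost everywhere by the ergodic theorem for one function over unrestricted boxes. The latter is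
deduced from the theorem in one variable, for bounded functions, by iteration (as in Dunford's and Zygmund's theorem).
-/

namespace Pool.Agent.Results.MP_f720ae_an.ExceptionalTimesBoxes

open MeasureTheory Filter Finset

universe u

/-- a measurable measure preserving flow -/
structure IsFlow {X : Type u} [MeasurableSpace X] (μ : Measure X) (τ : ℝ → X → X) : Prop where
  meas : Measurable (fun p : ℝ × X => τ p.1 p.2)
  zero : ∀ x, τ 0 x = x
  add : ∀ s t x, τ (s + t) x = τ s (τ t x)
  mp : ∀ t, MeasurePreserving (τ t) μ μ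

/-- `f` is in `L^∞` -/
def EssBdd {X : Type u} [MeasurableSpace X] (μ : Measure X) (f : X → ℂ) : Prop :=
  AEStronglyMeasurable f μ ∧ ∃ C : ℝ, ∀ᵐ x ∂μ, ‖f x‖ ≤ C

/-- uniformly bounded measurable weights -/
def Weights {X : Type u} [MeasurableSpace X] {k : ℕ} (μ : Measure X) (W : (Fin k → ℕ) → X → ℂ) : Prop :=
  (∀ m, AEStronglyMeasurable (W m) μ) ∧ ∃ C : ℝ, ∀ m, ∀ᵐ x ∂μ, ‖W m x‖ ≤ C

/-- the conditional expectation on the sets invariant under the flow -/
noncomputable def inv {X : Type u} [MeasurableSpace X] (μ : Measure X) (τ : ℝ → X → X) (f : X → ℂ) : X → ℂ :=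
  μ[f | ⨅ t : ℝ, MeasurableSpace.invariants (τ t)]

/-- The pointwise ergodic theorem for one function at the times `a P(n)`: for all `h` in `L^∞` the averages over
`1 ≤ n ≤ N` of `h(τ(a P(n)) x)` converge for almost every `x`. -/
def OneFunction {X : Type u} [MeasurableSpace X] (μ : Measure X) (τ : ℝ → X → X) (P : Polynomial ℝ) (a : ℝ) : Prop :=
  ∀ h : X → ℂ, EssBdd μ h → ∀ᵐ x ∂μ, ∃ L : ℂ,
    Tendsto (fun N : ℕ => (1 / (N : ℂ)) * ∑ n ∈ Icc 1 N, h (τ (a * P.eval (n : ℝ)) x)) atTop (nhds L)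

/-- the average over the box `[1, M_1] × ... × [1, M_k]` -/
noncomputable def avg {k : ℕ} (M : Fin k → ℕ) (h : (Fin k → ℕ) → ℂ) : ℂ :=
  (1 / ((∏ l, M l : ℕ) : ℂ)) * ∑ m ∈ Fintype.piFinset (fun l => Icc 1 (M l)), h m

/-- the value at `m` of the polynomial `p_1(m_1) + ... + p_k(m_k)` -/
noncomputable def ev {k : ℕ} (p : Fin k → Polynomial ℝ) (m : Fin k → ℕ) : ℝ := ∑ l, (p l).eval (m l : ℝ)

/-- an integer polynomial as a real polynomial -/
noncomputable def toReal (P : Polynomial ℤ) : Polynomial ℝ := P.map (Int.castRingHom ℝ)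

lemma dm_eq (d : ℕ) : Pool.Agent.U587.DX.dm d = ENNReal.ofReal (1 - 1 / (8 * (d : ℝ))) := by
  unfold Pool.Agent.U587.DX.dm
  congr 2
  push_cast
  rcases eq_or_ne (d : ℝ) 0 with h | h
  · rw [h]; norm_num
  · field_simp
    norm_num

lemma sg_of {X : Type u} [MeasurableSpace X] {μ : Measure X} {τ : ℝ → X → X} {P : Polynomial ℝ} {a : ℝ}
    (h : OneFunction μ τ P a) : Pool.Agent.U587.DX.Sg μ τ P a := by
  intro g hg hgb
  obtain ⟨C, hC⟩ := hgb
  filter_upwards [h (fun x => (g x : ℂ)) ⟨(Complex.measurable_ofReal.comp hg).aestronglyMeasurable, C,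
    ae_of_all _ fun x => by rw [Complex.norm_real]; exact hC x⟩] with x hx
  obtain ⟨L, hL⟩ := hx
  refine ⟨L.re, ((Complex.continuous_re.tendsto L).comp hL).congr fun N => ?_⟩
  simp only [Function.comp]
  rw [show (1 / (N : ℂ)) * ∑ n ∈ Icc 1 N, ((g (τ (a * P.eval (n : ℝ)) x) : ℝ) : ℂ) =
    (((1 / (N : ℝ)) * ∑ n ∈ Icc 1 N, g (τ (a * P.eval (n : ℝ)) x) : ℝ) : ℂ) by push_cast; rfl, Complex.ofReal_re]

lemma countable_intPoly : Countable (Polynomial ℤ) := by
  have h : Function.Injective (fun p : Polynomial ℤ => (List.ofFn fun i : Fin (p.natDegree + 1) => p.coeff i)) := by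
    intro p q hpq
    simp only at hpq
    have h1 := congrArg List.length hpq
    simp only [List.length_ofFn] at h1
    ext n
    by_cases hn : n < p.natDegree + 1
    · have h2 : (List.ofFn fun i : Fin (p.natDegree + 1) => p.coeff i)[n]? =
        (List.ofFn fun i : Fin (q.natDegree + 1) => q.coeff i)[n]? := by rw [hpq]
      have hn' : n < q.natDegree + 1 := by omega
      rw [List.getElem?_eq_getElem (by simpa using hn), List.getElem?_eq_getElem (by simpa using hn')] at h2
      simpa only [Option.some.injEq, List.getElem_ofFn] using h2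
    · rw [Polynomial.coeff_eq_zero_of_natDegree_lt (by omega), Polynomial.coeff_eq_zero_of_natDegree_lt (by omega)]
  exact h.countable

/-- **One exceptional set of dimension at most `1 - 1 / (8 d)`, averages over unrestricted boxes.** -/
theorem result (X : Type u) [MeasurableSpace X] (μ : Measure X) [IsProbabilityMeasure μ] [IsSeparable μ] (k r d : ℕ)
    (hk : 0 < k) (τ : Fin r → ℝ → X → X) (hτ : ∀ j, IsFlow μ (τ j)) :
    (∃ D : Set ℝ, dimH D ≤ ENNReal.ofReal (1 - 1 / (8 * (d : ℝ))) ∧ ∀ a : ℝ, a ∉ D →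
      ∀ (p : Fin r → Fin k → Polynomial ℤ) (e : Fin r → ℕ), (∀ j, 0 < e j ∧ e j ≤ d ∧ ∀ l, (p j l).natDegree = e j) →
        Function.Injective e → ∀ f : Fin r → X → ℂ, (∀ j, EssBdd μ (f j)) →
        Tendsto (fun M : Fin k → ℕ => ∫ x, ‖(avg M fun m => ∏ j, f j (τ j (a * ev (fun l => toReal (p j l)) m) x)) -
          ∏ j, inv μ (τ j) (f j) x‖ ^ 2 ∂μ) atTop (nhds 0) ∧
        ((∀ j, ∀ Q : Polynomial ℤ, OneFunction μ (τ j) (toReal Q) a) → ∀ᵐ x ∂μ,
          Tendsto (fun M : Fin k → ℕ => avg M fun m => ∏ j, f j (τ j (a * ev (fun l => toReal (p j l)) m) x)) atTop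
            (nhds (∏ j, inv μ (τ j) (f j) x)))) ∧
    (∀ (p : Fin r → Fin k → Polynomial ℝ) (e : Fin r → ℕ), (∀ j, 0 < e j ∧ e j ≤ d ∧ ∀ l, (p j l).natDegree = e j) →
      Function.Injective e → ∀ W : (Fin k → ℕ) → X → ℂ, Weights μ W →
      ∃ D : Set ℝ, dimH D ≤ ENNReal.ofReal (1 - 1 / (8 * (d : ℝ))) ∧ ∀ a : ℝ, a ∉ D →
        ∀ f : Fin r → X → ℂ, (∀ j, EssBdd μ (f j)) →
        Tendsto (fun M : Fin k → ℕ => ∫ x, ‖avg M fun m => W m x * (∏ j, f j (τ j (a * ev (p j) m) x) -
          ∏ j, inv μ (τ j) (f j) x)‖ ^ 2 ∂μ) atTop (nhds 0) ∧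
        ((∀ j l, OneFunction μ (τ j) (p j l) a) → ∀ᵐ x ∂μ,
          Tendsto (fun M : Fin k → ℕ => avg M fun m => W m x * (∏ j, f j (τ j (a * ev (p j) m) x) -
            ∏ j, inv μ (τ j) (f j) x)) atTop (nhds 0))) := by
  have hτ' : ∀ j, Pool.Agent.Y957.MC.IsFlow μ (τ j) := fun j => ⟨(hτ j).meas, (hτ j).zero, (hτ j).add, (hτ j).mp⟩
  have h2 : ∀ (p : Fin r → Fin k → Polynomial ℝ) (e : Fin r → ℕ),
      (∀ j, 0 < e j ∧ e j ≤ d ∧ ∀ l, (p j l).natDegree = e j) →
      Function.Injective e → ∀ W : (Fin k → ℕ) → X → ℂ, Weights μ W →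
      ∃ D : Set ℝ, dimH D ≤ ENNReal.ofReal (1 - 1 / (8 * (d : ℝ))) ∧ ∀ a : ℝ, a ∉ D →
        ∀ f : Fin r → X → ℂ, (∀ j, EssBdd μ (f j)) →
        Tendsto (fun M : Fin k → ℕ => ∫ x, ‖avg M fun m => W m x * (∏ j, f j (τ j (a * ev (p j) m) x) -
          ∏ j, inv μ (τ j) (f j) x)‖ ^ 2 ∂μ) atTop (nhds 0) ∧
        ((∀ j l, OneFunction μ (τ j) (p j l) a) → ∀ᵐ x ∂μ,
          Tendsto (fun M : Fin k → ℕ => avg M fun m => W m x * (∏ j, f j (τ j (a * ev (p j) m) x) -
            ∏ j, inv μ (τ j) (f j) x)) atTop (nhds 0)) := by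
    intro p e hp hinj W hW
    obtain ⟨D, hD, h⟩ := Pool.Agent.U587.BX.box_gen (μ := μ) hk hτ' (p := p) (e := e)
      (fun j => ⟨(hp j).1, (hp j).2.2⟩) (fun j => (hp j).2.1) hW.1 hW.2 hinj
    rw [dm_eq] at hD
    refine ⟨D, hD, fun a ha f hf => ?_⟩
    obtain ⟨g1, g2⟩ := h a ha f (fun j => (hf j).1) (fun j => (hf j).2)
    exact ⟨g1, fun hS => g2 fun j l => sg_of (hS j l)⟩
  refine ⟨?_, h2⟩
  have hdeg : ∀ Q : Polynomial ℤ, (toReal Q).natDegree = Q.natDegree := fun Q =>
    Polynomial.natDegree_map_eq_of_injective Int.cast_injective Q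
  have hone : Weights (k := k) μ (fun (_ : Fin k → ℕ) (_ : X) => (1 : ℂ)) :=
    ⟨fun _ => aestronglyMeasurable_const, 1, fun _ => ae_of_all _ fun _ => by simp⟩
  have havg : ∀ (M : Fin k → ℕ), (fun _ : Fin k => 1) ≤ M → ∀ (φ : (Fin k → ℕ) → ℂ) (c : ℂ),
      (avg M fun m => 1 * (φ m - c)) = avg M φ - c := by
    intro M hM φ c
    have h4 := Pool.Agent.R497.TB.bavg_sub_const M φ (fun _ => 1) c
    rw [Pool.Agent.R497.TB.bavg_one (fun l => hM l), mul_one] at h4
    simp only [one_mul] at h4 ⊢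
    exact h4.symm
  have hex : ∀ P : {P : (Fin r → Fin k → Polynomial ℤ) × (Fin r → ℕ) //
      (∀ j, 0 < P.2 j ∧ P.2 j ≤ d ∧ ∀ l, (P.1 j l).natDegree = P.2 j) ∧ Function.Injective P.2},
      ∃ D : Set ℝ, dimH D ≤ ENNReal.ofReal (1 - 1 / (8 * (d : ℝ))) ∧
      ∀ a : ℝ, a ∉ D → ∀ f : Fin r → X → ℂ, (∀ j, EssBdd μ (f j)) →
        Tendsto (fun M : Fin k → ℕ => ∫ x, ‖(avg M fun m => ∏ j, f j (τ j (a * ev (fun l => toReal (P.1.1 j l)) m) x)) -
          ∏ j, inv μ (τ j) (f j) x‖ ^ 2 ∂μ) atTop (nhds 0) ∧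
        ((∀ j, ∀ Q : Polynomial ℤ, OneFunction μ (τ j) (toReal Q) a) → ∀ᵐ x ∂μ,
          Tendsto (fun M : Fin k → ℕ => avg M fun m => ∏ j, f j (τ j (a * ev (fun l => toReal (P.1.1 j l)) m) x)) atTop
            (nhds (∏ j, inv μ (τ j) (f j) x))) := by
    rintro ⟨⟨p, e⟩, hp, hinj⟩
    obtain ⟨D, hD, h⟩ := h2 (fun j l => toReal (p j l)) e
      (fun j => ⟨(hp j).1, (hp j).2.1, fun l => by rw [hdeg]; exact (hp j).2.2 l⟩) hinj (fun _ _ => 1) hone
    refine ⟨D, hD, fun a ha f hf => ?_⟩
    obtain ⟨g1, g2⟩ := h a ha f hf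
    constructor
    · refine g1.congr' ?_
      filter_upwards [eventually_ge_atTop (fun _ : Fin k => 1)] with M hM
      refine integral_congr_ae (ae_of_all _ fun x => ?_)
      simp only
      rw [havg M hM]
    · intro hS
      filter_upwards [g2 fun j l => hS j (p j l)] with x hx
      have h5 := hx.add_const (∏ j, inv μ (τ j) (f j) x)
      rw [zero_add] at h5
      refine h5.congr' ?_
      filter_upwards [eventually_ge_atTop (fun _ : Fin k => 1)] with M hM
      rw [havg M hM]
      ring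
  choose D hD hDa using hex
  have := countable_intPoly
  refine ⟨⋃ P, D P, ?_, fun a ha p e hp hinj => ?_⟩
  · rw [dimH_iUnion]
    exact iSup_le hD
  · rw [Set.mem_iUnion, not_exists] at ha
    exact hDa ⟨(p, e), hp, hinj⟩ a (ha _)

end Pool.Agent.Results.MP_f720ae_an.ExceptionalTimesBoxes
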