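import Pool.Agent.U547.KQ.Q3

/-!
# Logarithmically restricted boxes and polynomials: Kolmogorov extensions and Kolmogorov actions

A group `G` (not necessarily commutative or nilpotent) acts by measure preserving bijections `Φ g` of an
arbitrary probability space `(X, μ)`, and `ℓ : G → ℝ` is a homomorphism. The action is a Kolmogorov
(`K`-) extension of its factor `𝒴` (an arbitrary invariant sub-`σ`-algebra) if there is a `σ`-algebra
`𝒜 ⊇ 𝒴` which decreases under the maps `Φ g` with `ℓ g ≤ 0`, the images of which generate everything, and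
the intersection of whose images is `𝒴` modulo null sets; it is a `K`-action if `𝒴` is trivial.

The result `KolmogorovPolynomialBoxes` on this page treats unrestricted boxes, if all variables occur in all
the positions `L_j(m) = ℓ (q_j(m))`. Here there is no such condition: the positions `L_j` are arbitrary polynomials with real
coefficients such that no `L_j` and no `L_i - L_j`, `i ≠ j`, is constant, and in return the boxes
`[1, M_1] × ⋯ × [1, M_k]` belong to a set `𝒮` in which `(log M_i)^2 ≤ M_j` for all `i`, `j` (for instance the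
cubes, for which the convergence of the averages of single functions is known for commuting maps, or all the boxes with
this property). For these boxes the factor `𝒴` is characteristic almost everywhere, and for `K`-actions the averages converge
to `∏_j ∫ f_j`.

Each of the `n` terms of the decomposition of the product is summed along lines in a direction of its own, which may be
a short side of the box; the number of the lines is still small compared with the exponential inequality.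
-/

set_option autoImplicit false

open Filter Topology MeasureTheory
open scoped ENNReal

namespace Pool.Agent.Results.MP_f720ae_an.KolmogorovLogBoxes

/-- The average of `F` over the box `[1, M_1] × ⋯ × [1, M_k]`. -/
noncomputable def boxAvg {k : ℕ} (M : Fin k → ℕ) (F : (Fin k → ℕ) → ℂ) : ℂ :=
  (∏ l, (M l : ℂ))⁻¹ * ∑ m ∈ Fintype.piFinset (fun l => Finset.Icc 1 (M l)), F m

/-- `t_1^{P_1(m)} ⋯ t_d^{P_d(m)}` -/
noncomputable def polyMap {G : Type} [Group G] {d k : ℕ} (t : Fin d → G)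
    (P : Fin d → MvPolynomial (Fin k) ℤ) (m : Fin k → ℕ) : G :=
  (List.ofFn fun i => t i ^ MvPolynomial.eval (fun l => (m l : ℤ)) (P i)).prod

/-- `ℓ(t_1) P_1 + ⋯ + ℓ(t_d) P_d` -/
noncomputable def position {G : Type} {d k : ℕ} (ℓ : G → ℝ) (t : Fin d → G)
    (P : Fin d → MvPolynomial (Fin k) ℤ) : MvPolynomial (Fin k) ℝ :=
  ∑ i, MvPolynomial.C (ℓ (t i)) * MvPolynomial.map (Int.castRingHom ℝ) (P i)

/-- `ℓ (q j m) = L_j(m)` -/
def HasPositions {G : Type} {k n : ℕ} (ℓ : G → ℝ) (q : Fin n → (Fin k → ℕ) → G)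
    (L : Fin n → MvPolynomial (Fin k) ℝ) : Prop :=
  ∀ j m, ℓ (q j m) = MvPolynomial.eval (fun l => (m l : ℝ)) (L j)

/-- The differences `L_i - L_j`, `i ≠ j`, are not constant. -/
def Distinct {k n : ℕ} (L : Fin n → MvPolynomial (Fin k) ℝ) : Prop :=
  ∀ i j, i ≠ j → (L i - L j).vars.Nonempty

/-- `ℓ` is a homomorphism to the reals, the maps `Φ g` preserve `μ`, the `σ`-algebra `𝒜` decreases under the maps
`Φ g` with `ℓ g ≤ 0`, and the `σ`-algebras `(Φ g)⁻¹ 𝒜` generate all measurable sets modulo `μ`. -/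
structure IsFiltered {X G : Type} [Group G] (𝒜 : MeasurableSpace X) {mX : MeasurableSpace X}
    (μ : Measure X) (Φ : G →* Equiv.Perm X) (ℓ : G → ℝ) : Prop where
  measurePreserving : ∀ g, MeasurePreserving (Φ g) μ μ
  hom : ∀ g h, ℓ (g * h) = ℓ g + ℓ h
  le : 𝒜 ≤ mX
  mono : ∀ g, ℓ g ≤ 0 → 𝒜.comap (Φ g : X → X) ≤ 𝒜
  generates : ∀ B, MeasurableSet[mX] B →
    ∃ B', MeasurableSet[⨆ g, 𝒜.comap (Φ g : X → X)] B' ∧ B =ᵐ[μ] B'

/-- The action is a Kolmogorov extension of its factor `𝒴`. -/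
structure IsKolmogorovExtension {X G : Type} [Group G] (𝒴 : MeasurableSpace X)
    {mX : MeasurableSpace X} (μ : Measure X) (Φ : G →* Equiv.Perm X) (ℓ : G → ℝ) : Prop where
  invariant : ∀ g, Measurable[𝒴, 𝒴] (Φ g : X → X)
  exists_filtration : ∃ 𝒜 : MeasurableSpace X, 𝒴 ≤ 𝒜 ∧ IsFiltered 𝒜 μ Φ ℓ ∧
    ∀ B, (∀ g, MeasurableSet[𝒜.comap (Φ g : X → X)] B) →
      ∃ B', MeasurableSet[𝒴] B' ∧ B =ᵐ[μ] B'

/-- The action is a Kolmogorov action: the intersection of the `σ`-algebras `(Φ g)⁻¹ 𝒜` is trivial. -/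
def IsKolmogorovAction {X G : Type} [Group G] {mX : MeasurableSpace X} (μ : Measure X)
    (Φ : G →* Equiv.Perm X) (ℓ : G → ℝ) : Prop :=
  ∃ 𝒜 : MeasurableSpace X, IsFiltered 𝒜 μ Φ ℓ ∧
    ∀ B, (∀ g, MeasurableSet[𝒜.comap (Φ g : X → X)] B) → μ B = 0 ∨ μ B = 1

/-- The boxes of the set `𝒮` with `M_1, …, M_k → ∞`. -/
def boxes {k : ℕ} (𝒮 : Set (Fin k → ℕ)) : Filter (Fin k → ℕ) := atTop ⊓ 𝓟 𝒮

/-- `(log M_i)^2 ≤ M_j` for all boxes of `𝒮` and all `i`, `j`. -/
def LogRestricted {k : ℕ} (𝒮 : Set (Fin k → ℕ)) : Prop :=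
  ∀ M ∈ 𝒮, ∀ i j, Real.log (M i) ^ 2 ≤ M j

/-- `g(m) = c b_1^{m_1} ⋯ b_k^{m_k}`, or the averages over the boxes of `𝒮` of every bounded measurable function along
the maps `g(m)` converge almost everywhere. -/
def SingleAverages {X G : Type} [Group G] {mX : MeasurableSpace X} {k : ℕ}
    (𝒮 : Set (Fin k → ℕ)) (μ : Measure X) (Φ : G →* Equiv.Perm X) (g : (Fin k → ℕ) → G) : Prop :=
  (∃ (c : G) (b : Fin k → G), ∀ m, g m = c * (List.ofFn fun l => b l ^ m l).prod) ∨
    ∀ H : X → ℝ, Measurable H → (∃ C : ℝ, ∀ x, |H x| ≤ C) →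
      ∀ᵐ x ∂μ, ∃ L : ℝ, Tendsto (fun M : Fin k → ℕ => (∏ l, (M l : ℝ))⁻¹ *
        ∑ m ∈ Fintype.piFinset (fun l => Finset.Icc 1 (M l)), H (Φ (g m) x)) (boxes 𝒮) (𝓝 L)

open Pool.Agent.W761.Gauss (BM_of_memLp)
open Pool.Agent.W761.Box (BM Good1 bxc bx)
open Pool.Agent.TH784.KE (KExt pos exists_cond bx_eq)
open Pool.Agent.U547.KB
open Pool.Agent.U547.KP
open Pool.Agent.U547.KQ

theorem kext {X G : Type} [Group G] {𝒜 𝒴 mX : MeasurableSpace X} {μ : Measure X}
    {Φ : G →* Equiv.Perm X} {ℓ : G → ℝ}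
    (h : IsFiltered 𝒜 μ Φ ℓ) (hinv : ∀ g, Measurable[𝒴, 𝒴] (Φ g : X → X)) (hY : 𝒴 ≤ 𝒜)
    (ht : ∀ B, (∀ g, MeasurableSet[𝒜.comap (Φ g : X → X)] B) →
      ∃ B', MeasurableSet[𝒴] B' ∧ B =ᵐ[μ] B') : KExt μ 𝒜 𝒴 Φ ℓ :=
  ⟨h.measurePreserving, ⟨h.hom, h.le, h.mono⟩, ⟨hY, hinv⟩, h.generates, ht⟩

theorem boxes_le {k : ℕ} (𝒮 : Set (Fin k → ℕ)) : boxes 𝒮 ≤ atTop := inf_le_left

theorem boxes_gr {k : ℕ} {𝒮 : Set (Fin k → ℕ)} (h : LogRestricted 𝒮) :
    ∀ᶠ N in boxes 𝒮, ∀ i j, N i ≤ gr (N j) := by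
  have h1 : ∀ᶠ N in boxes 𝒮, N ∈ 𝒮 :=
    (inf_le_right : boxes 𝒮 ≤ 𝓟 𝒮) (mem_principal_self 𝒮)
  filter_upwards [h1] with N hN i j
  exact gr_of_log (h N hN i j)

instance boxes_cg {k : ℕ} (𝒮 : Set (Fin k → ℕ)) : (boxes 𝒮).IsCountablyGenerated := by
  unfold boxes
  infer_instance

theorem single {X G : Type} [Group G] {mX : MeasurableSpace X} {μ : Measure X}
    [IsProbabilityMeasure μ] {Φ : G →* Equiv.Perm X} (hmp : ∀ g, MeasurePreserving (Φ g) μ μ)
    {k : ℕ} {𝒮 : Set (Fin k → ℕ)} {g : (Fin k → ℕ) → G} (h : SingleAverages 𝒮 μ Φ g) :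
    MajF (boxes 𝒮) μ fun m : Fin k → ℕ => (Φ (g fun l => m l + 1) : X → X) := by
  rcases h with ⟨c, b, h⟩ | h
  · have h1 := single_pr hmp c b
    have e : (fun m : Fin k → ℕ => (Φ (c * pr b m) : X → X)) = fun m => (Φ (g m) : X → X) := by
      funext m
      rw [h]
      rfl
    rw [e] at h1
    exact majF_of_maj (boxes_le 𝒮) (maj_of_good (fun m => hmp _)
      ((single_iff (μ := μ) (fun m => (Φ (g m) : X → X))).1 h1))
  · refine majF_of_single (fun m => hmp _) fun H hH hC => ?_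
    filter_upwards [h H hH hC] with x hx
    obtain ⟨L, hL⟩ := hx
    refine ⟨L, hL.congr fun M => ?_⟩
    rw [avg_Icc_real]

theorem degreeOf_pos {k : ℕ} {L : MvPolynomial (Fin k) ℝ} {l : Fin k} (h : l ∈ L.vars) :
    0 < L.degreeOf l := by
  rw [MvPolynomial.vars_def, Multiset.mem_toFinset] at h
  rw [MvPolynomial.degreeOf_def, Multiset.count_pos]
  exact h

theorem ev_shift {G : Type} {k n : ℕ} {ℓ : G → ℝ} {q : Fin n → (Fin k → ℕ) → G}
    {L : Fin n → MvPolynomial (Fin k) ℝ} (h : HasPositions ℓ q L) (m : Fin k → ℕ) (j : Fin n) :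
    ℓ (q j fun l => m l + 1) = ev (L j) m := by
  rw [h, ev]
  congr 2
  funext l
  push_cast
  rfl

theorem exists_pos' {X G : Type} [Group G] {𝒜 𝒴 mX : MeasurableSpace X} {μ : Measure X}
    {Φ : G →* Equiv.Perm X} {ℓ : G → ℝ} (hK : KExt μ 𝒜 𝒴 Φ ℓ)
    {k n : ℕ} {q : Fin n → (Fin k → ℕ) → G} {L : Fin n → MvPolynomial (Fin k) ℝ}
    (h : HasPositions ℓ q L) {j : Fin n} {l : Fin k} (hl : l ∈ (L j).vars) :
    ∃ s₀ : G, 0 < ℓ s₀ := by
  classical
  have h1 := values_null (L j) l (degreeOf_pos hl) one_pos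
  have h2 : ∃ m : Fin k → ℕ, 1 ≤ |ev (L j) m| := by
    by_contra hcon
    push Not at hcon
    have h3 : ∀ᶠ N : Fin k → ℕ in atTop,
        frac (fun n : Fin k → ℕ => |ev (L j) n| < 1) N = 1 := by
      refine eventually_atTop.2 ⟨fun _ => 1, fun N hN => ?_⟩
      rw [frac_eq, bx_eq]
      simp only [hcon, if_true]
      rw [Finset.sum_const, nsmul_eq_mul, mul_one, Pool.Agent.TH784.AA.card_bxs]
      exact inv_mul_cancel₀ (Pool.Agent.TH784.AA.vol_pos hN).ne'
    have h4 := Tendsto.congr' h3 h1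
    exact zero_ne_one (tendsto_nhds_unique h4 tendsto_const_nhds)
  obtain ⟨m, hm⟩ := h2
  rw [← ev_shift h] at hm
  rcases lt_trichotomy (ℓ (q j fun l => m l + 1)) 0 with h4 | h4 | h4
  · exact ⟨(q j fun l => m l + 1)⁻¹, by
      rw [hK.filt.inv]
      linarith⟩
  · rw [h4, abs_zero] at hm
    linarith
  · exact ⟨_, h4⟩

theorem eval_position {G : Type} [Group G] {d k : ℕ} {ℓ : G → ℝ}
    (hom : ∀ g h, ℓ (g * h) = ℓ g + ℓ h) (t : Fin d → G) (P : Fin d → MvPolynomial (Fin k) ℤ)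
    (m : Fin k → ℕ) :
    ℓ (polyMap t P m) = MvPolynomial.eval (fun l => (m l : ℝ)) (position ℓ t P) := by
  have h1 : ℓ 1 = 0 := by
    have := hom 1 1
    rw [mul_one] at this
    linarith
  have hinv : ∀ g : G, ℓ g⁻¹ = -ℓ g := by
    intro g
    have := hom g g⁻¹
    rw [mul_inv_cancel, h1] at this
    linarith
  have hpow : ∀ (g : G) (t : ℕ), ℓ (g ^ t) = t * ℓ g := by
    intro g t
    induction t with
    | zero => simp [h1]
    | succ t ih =>
      rw [pow_succ, hom, ih]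
      push_cast
      ring
  have hzpow : ∀ (g : G) (t : ℤ), ℓ (g ^ t) = t * ℓ g := by
    intro g t
    obtain ⟨k, rfl | rfl⟩ := t.eq_nat_or_neg
    · rw [zpow_natCast, hpow]
      simp
    · rw [zpow_neg, zpow_natCast, hinv, hpow]
      push_cast
      ring
  have hlist : ∀ L : List G, ℓ L.prod = (L.map ℓ).sum := by
    intro L
    induction L with
    | nil => simp [h1]
    | cons a L ih => rw [List.prod_cons, hom, ih, List.map_cons, List.sum_cons]
  have hcast : ∀ Q : MvPolynomial (Fin k) ℤ,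
      MvPolynomial.eval (fun l => (m l : ℝ)) (MvPolynomial.map (Int.castRingHom ℝ) Q) =
        ((MvPolynomial.eval (fun l => (m l : ℤ)) Q : ℤ) : ℝ) := by
    intro Q
    induction Q using MvPolynomial.induction_on with
    | C a => simp
    | add p q hp hq =>
      rw [map_add, map_add, map_add, hp, hq]
      push_cast
      rfl
    | mul_X p i hp =>
      rw [map_mul, map_mul, map_mul, hp, MvPolynomial.map_X, MvPolynomial.eval_X,
        MvPolynomial.eval_X]
      push_cast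
      rfl
  rw [polyMap, hlist, List.map_ofFn, List.sum_ofFn, position, map_sum]
  refine Finset.sum_congr rfl fun i _ => ?_
  rw [Function.comp_apply, hzpow, map_mul, MvPolynomial.eval_C, hcast, mul_comm]

/-- Let `(X, μ)` be a probability space, `G` a group acting on it, `ℓ : G → ℝ`, and `f_1, …, f_n ∈ L^∞`. Let `𝒮` be a set of
boxes with `(log M_i)^2 ≤ M_j` for all `i`, `j`; the limits are over the boxes in `𝒮` with `min_l M_l → ∞`.
Let `ℓ (q_j(m)) = L_j(m)` with real polynomials `L_j` in `k` variables, no `L_j` and no `L_i - L_j` (`i ≠ j`) constant, and let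
the averages of single functions along each `q_j` converge.
1. If `X` is a Kolmogorov extension of its factor `𝒴`, then for almost every `x` the
averages of `∏_j f_j (q_j(m) x)` and of `∏_j E(f_j | 𝒴) (q_j(m) x)` have difference tending to zero; hence if the averages
of bounded `𝒴`-measurable functions converge almost everywhere, then so do those of all functions in `L^∞`.
2. For Kolmogorov actions the averages converge to `∏_j ∫ f_j`.
3., 4. The same for the maps `t_1^{P_1j(m)} ⋯ t_d^{P_dj(m)}` with `P_ij ∈ ℤ[m_1, …, m_k]` and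
`L_j = ℓ(t_1) P_1j + ⋯ + ℓ(t_d) P_dj`. -/
theorem result {X G : Type} [Group G] (𝒴 : MeasurableSpace X) [mX : MeasurableSpace X]
    (μ : Measure X) [IsProbabilityMeasure μ] (Φ : G →* Equiv.Perm X) (ℓ : G → ℝ) (d k n : ℕ)
    (𝒮 : Set (Fin k → ℕ)) (h𝒮 : LogRestricted 𝒮) :
    (IsKolmogorovExtension 𝒴 μ Φ ℓ →
      ∀ (q : Fin n → (Fin k → ℕ) → G) (L : Fin n → MvPolynomial (Fin k) ℝ), HasPositions ℓ q L →
        Distinct L → (∀ j, (L j).vars.Nonempty) → (∀ j, SingleAverages 𝒮 μ Φ (q j)) →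
        (∀ f : Fin n → X → ℂ, (∀ j, MemLp (f j) ∞ μ) → ∀ᵐ x ∂μ, Tendsto (fun M : Fin k → ℕ =>
          boxAvg M (fun m => ∏ j, f j (Φ (q j m) x)) -
            boxAvg M (fun m => ∏ j, (μ[f j | 𝒴]) (Φ (q j m) x))) (boxes 𝒮) (𝓝 0)) ∧
        ((∀ e : Fin n → X → ℂ, (∀ j, Measurable[𝒴] (e j) ∧ ∃ C : ℝ, ∀ x, ‖e j x‖ ≤ C) →
          ∀ᵐ x ∂μ, ∃ A, Tendsto (fun M : Fin k → ℕ =>
            boxAvg M fun m => ∏ j, e j (Φ (q j m) x)) (boxes 𝒮) (𝓝 A)) →
          ∀ f : Fin n → X → ℂ, (∀ j, MemLp (f j) ∞ μ) → ∀ᵐ x ∂μ, ∃ A, Tendsto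
            (fun M : Fin k → ℕ => boxAvg M fun m => ∏ j, f j (Φ (q j m) x)) (boxes 𝒮) (𝓝 A))) ∧
    (IsKolmogorovAction μ Φ ℓ →
      ∀ (q : Fin n → (Fin k → ℕ) → G) (L : Fin n → MvPolynomial (Fin k) ℝ), HasPositions ℓ q L →
        Distinct L → (∀ j, (L j).vars.Nonempty) → (∀ j, SingleAverages 𝒮 μ Φ (q j)) →
        ∀ f : Fin n → X → ℂ, (∀ j, MemLp (f j) ∞ μ) → ∀ᵐ x ∂μ, Tendsto (fun M : Fin k → ℕ =>
          boxAvg M fun m => ∏ j, f j (Φ (q j m) x)) (boxes 𝒮) (𝓝 (∏ j, ∫ y, f j y ∂μ))) ∧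
    (IsKolmogorovExtension 𝒴 μ Φ ℓ →
      ∀ (t : Fin d → G) (P : Fin n → Fin d → MvPolynomial (Fin k) ℤ),
        Distinct (fun j => position ℓ t (P j)) → (∀ j, (position ℓ t (P j)).vars.Nonempty) →
        (∀ j, SingleAverages 𝒮 μ Φ (polyMap t (P j))) →
        (∀ f : Fin n → X → ℂ, (∀ j, MemLp (f j) ∞ μ) → ∀ᵐ x ∂μ, Tendsto (fun M : Fin k → ℕ =>
          boxAvg M (fun m => ∏ j, f j (Φ (polyMap t (P j) m) x)) -
            boxAvg M (fun m => ∏ j, (μ[f j | 𝒴]) (Φ (polyMap t (P j) m) x))) (boxes 𝒮) (𝓝 0)) ∧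
        ((∀ e : Fin n → X → ℂ, (∀ j, Measurable[𝒴] (e j) ∧ ∃ C : ℝ, ∀ x, ‖e j x‖ ≤ C) →
          ∀ᵐ x ∂μ, ∃ A, Tendsto (fun M : Fin k → ℕ =>
            boxAvg M fun m => ∏ j, e j (Φ (polyMap t (P j) m) x)) (boxes 𝒮) (𝓝 A)) →
          ∀ f : Fin n → X → ℂ, (∀ j, MemLp (f j) ∞ μ) → ∀ᵐ x ∂μ, ∃ A, Tendsto
            (fun M : Fin k → ℕ => boxAvg M fun m => ∏ j, f j (Φ (polyMap t (P j) m) x))
            (boxes 𝒮) (𝓝 A))) ∧
    (IsKolmogorovAction μ Φ ℓ →
      ∀ (t : Fin d → G) (P : Fin n → Fin d → MvPolynomial (Fin k) ℤ),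
        Distinct (fun j => position ℓ t (P j)) → (∀ j, (position ℓ t (P j)).vars.Nonempty) →
        (∀ j, SingleAverages 𝒮 μ Φ (polyMap t (P j))) →
        ∀ f : Fin n → X → ℂ, (∀ j, MemLp (f j) ∞ μ) → ∀ᵐ x ∂μ, Tendsto (fun M : Fin k → ℕ =>
          boxAvg M fun m => ∏ j, f j (Φ (polyMap t (P j) m) x)) (boxes 𝒮)
            (𝓝 (∏ j, ∫ y, f j y ∂μ))) := by
  -- bounded representatives
  have hBM : ∀ f : Fin n → X → ℂ, (∀ j, MemLp (f j) ∞ μ) → ∃ g : Fin n → X → ℂ,
      (∀ j, BM (g j)) ∧ ∀ j, f j =ᵐ[μ] g j := by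
    intro f hf
    choose g hg hfg using fun j => BM_of_memLp (hf j)
    exact ⟨g, hg, hfg⟩
  have hrep : ∀ (hmp : ∀ g, MeasurePreserving (Φ g) μ μ) (q : Fin n → (Fin k → ℕ) → G)
      (f g : Fin n → X → ℂ), (∀ j, f j =ᵐ[μ] g j) →
      ∀ᵐ x ∂μ, ∀ (m : Fin k → ℕ) (j : Fin n), f j (Φ (q j m) x) = g j (Φ (q j m) x) := by
    intro hmp q f g hfg
    rw [ae_all_iff]
    intro m
    rw [ae_all_iff]
    intro j
    exact (hmp _).quasiMeasurePreserving.ae (hfg j)
  -- positions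
  have hwide : ∀ (q : Fin n → (Fin k → ℕ) → G) (L : Fin n → MvPolynomial (Fin k) ℝ),
      HasPositions ℓ q L → Distinct L → ∀ l₀ : Fin n → Fin k, (∀ j, l₀ j ∈ (L j).vars) →
      Wide Finset.univ (fun v => {l₀ v})
        (fun (m : Fin k → ℕ) j => ℓ (q j fun l => m l + 1)) := by
    intro q L hq hL l₀ hl₀
    have h1 := wide_poly (S := Finset.univ) L (fun m j => ev_shift hq m j) fun v _ w _ hvw => by
      obtain ⟨l, hl⟩ := hL v w hvw
      exact ⟨l, degreeOf_pos hl⟩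
    exact wide_one h1 fun v _ => Finset.mem_filter.2 ⟨Finset.mem_univ _, degreeOf_pos (hl₀ v)⟩
  -- extensions
  have hext : IsKolmogorovExtension 𝒴 μ Φ ℓ →
      ∀ (q : Fin n → (Fin k → ℕ) → G) (L : Fin n → MvPolynomial (Fin k) ℝ), HasPositions ℓ q L →
        Distinct L → (∀ j, (L j).vars.Nonempty) → (∀ j, SingleAverages 𝒮 μ Φ (q j)) →
        ∀ f : Fin n → X → ℂ, (∀ j, MemLp (f j) ∞ μ) → ∀ᵐ x ∂μ, Tendsto (fun M : Fin k → ℕ =>
          boxAvg M (fun m => ∏ j, f j (Φ (q j m) x)) -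
            boxAvg M (fun m => ∏ j, (μ[f j | 𝒴]) (Φ (q j m) x))) (boxes 𝒮) (𝓝 0) := by
    intro h𝒴 q L hq hL hvar hsing f hf
    rcases isEmpty_or_nonempty (Fin n) with hn | ⟨⟨j₀⟩⟩
    · refine Eventually.of_forall fun x => ?_
      simp only [Finset.univ_eq_empty, Finset.prod_empty, sub_self]
      exact tendsto_const_nhds
    choose l₀ hl₀ using hvar
    choose g hg hfg using fun j => BM_of_memLp (hf j)
    obtain ⟨hinv, 𝒜, hY𝒜, hfil, htail⟩ := h𝒴
    have hK : KExt μ 𝒜 𝒴 Φ ℓ := kext hfil hinv hY𝒜 htail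
    obtain ⟨s₀, hs₀⟩ := exists_pos' hK hq (hl₀ j₀)
    choose e he heY hee hfe using fun j => exists_cond (μ := μ) (hY𝒜.trans hfil.le) (hg j)
    have hmain := log_char (J := Fin n) (boxes_le 𝒮) (boxes_gr h𝒮) hK hs₀
      (q := fun m j => q j (fun l => m l + 1)) (hwide q L hq hL l₀ hl₀)
      (fun j => single hfil.measurePreserving (hsing j)) hg he heY hfe
    have h1 := hrep hfil.measurePreserving q f g hfg
    have h2 := hrep hfil.measurePreserving q (fun j => μ[f j | 𝒴]) e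
      (fun j => (condExp_congr_ae (hfg j)).trans (hee j).symm)
    filter_upwards [hmain, h1, h2] with x hx hx1 hx2
    refine hx.congr fun M => ?_
    unfold boxAvg
    rw [avg_Icc, avg_Icc, ← Pool.Agent.W761.Box.bxc_sub]
    congr 1
    funext m
    congr 1
    · exact Finset.prod_congr rfl fun j _ => (hx1 _ j).symm
    · exact Finset.prod_congr rfl fun j _ => (hx2 _ j).symm
  -- transfer
  have hext2 : IsKolmogorovExtension 𝒴 μ Φ ℓ →
      ∀ (q : Fin n → (Fin k → ℕ) → G) (L : Fin n → MvPolynomial (Fin k) ℝ), HasPositions ℓ q L →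
        Distinct L → (∀ j, (L j).vars.Nonempty) → (∀ j, SingleAverages 𝒮 μ Φ (q j)) →
        ((∀ e : Fin n → X → ℂ, (∀ j, Measurable[𝒴] (e j) ∧ ∃ C : ℝ, ∀ x, ‖e j x‖ ≤ C) →
          ∀ᵐ x ∂μ, ∃ A, Tendsto (fun M : Fin k → ℕ =>
            boxAvg M fun m => ∏ j, e j (Φ (q j m) x)) (boxes 𝒮) (𝓝 A)) →
          ∀ f : Fin n → X → ℂ, (∀ j, MemLp (f j) ∞ μ) → ∀ᵐ x ∂μ, ∃ A, Tendsto
            (fun M : Fin k → ℕ => boxAvg M fun m => ∏ j, f j (Φ (q j m) x)) (boxes 𝒮) (𝓝 A)) := by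
    intro h𝒴 q L hq hL hvar hsing hbase f hf
    have h1 := hext h𝒴 q L hq hL hvar hsing f hf
    obtain ⟨𝒜, hY𝒜, hfil, -⟩ := h𝒴.exists_filtration
    obtain ⟨g, hg, hfg⟩ := hBM f hf
    choose e he heY hee hfe using fun j => exists_cond (μ := μ) (hY𝒜.trans hfil.le) (hg j)
    have h2 := hbase e (fun j => ⟨heY j, (he j).2⟩)
    have h3 := hrep hfil.measurePreserving q
      (fun j => μ[f j | 𝒴]) e (fun j => (condExp_congr_ae (hfg j)).trans (hee j).symm)
    filter_upwards [h1, h2, h3] with x hx1 hx2 hx3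
    obtain ⟨A, hA⟩ := hx2
    refine ⟨0 + A, (hx1.add hA).congr fun M => ?_⟩
    have h4 : boxAvg M (fun m => ∏ j, (μ[f j | 𝒴]) (Φ (q j m) x)) =
        boxAvg M (fun m => ∏ j, e j (Φ (q j m) x)) := by
      congr 1
      funext m
      exact Finset.prod_congr rfl fun j _ => hx3 m j
    rw [h4]
    ring
  -- actions
  have hact : IsKolmogorovAction μ Φ ℓ →
      ∀ (q : Fin n → (Fin k → ℕ) → G) (L : Fin n → MvPolynomial (Fin k) ℝ), HasPositions ℓ q L →
        Distinct L → (∀ j, (L j).vars.Nonempty) → (∀ j, SingleAverages 𝒮 μ Φ (q j)) →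
        ∀ f : Fin n → X → ℂ, (∀ j, MemLp (f j) ∞ μ) → ∀ᵐ x ∂μ, Tendsto (fun M : Fin k → ℕ =>
          boxAvg M fun m => ∏ j, f j (Φ (q j m) x)) (boxes 𝒮) (𝓝 (∏ j, ∫ y, f j y ∂μ)) := by
    intro hKA q L hq hL hne hsing f hf
    choose g hg hfg using fun j => BM_of_memLp (hf j)
    obtain ⟨𝒜, hfil, htail⟩ := hKA
    have hK : KExt μ 𝒜 ⊥ Φ ℓ := by
      refine kext hfil (fun g => ?_) bot_le fun B hB => ?_
      · intro s hs
        rcases MeasurableSpace.measurableSet_bot_iff.1 hs with rfl | rfl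
        · simp
        · simp
      · rcases htail B hB with h | h
        · exact ⟨∅, MeasurableSpace.measurableSet_empty ⊥, ae_eq_empty.2 h⟩
        · refine ⟨Set.univ, @MeasurableSet.univ X ⊥, ?_⟩
          have hB' : MeasurableSet[mX] B := by
            have h3 := hB 1
            rw [map_one] at h3
            have h4 : 𝒜.comap ((1 : Equiv.Perm X) : X → X) = 𝒜 := by
              rw [Equiv.Perm.coe_one]
              exact MeasurableSpace.comap_id
            rw [h4] at h3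
            exact hfil.le _ h3
          rw [ae_eq_univ]
          exact (prob_compl_eq_zero_iff hB').2 h
    have hgi : ∀ j, Integrable (g j) μ := by
      intro j
      obtain ⟨h5, C, h6⟩ := hg j
      exact Integrable.of_bound h5.aestronglyMeasurable C (Eventually.of_forall h6)
    have hone : ∀ᶠ N in boxes 𝒮, ∀ l, 1 ≤ N l :=
      boxes_le 𝒮 (eventually_atTop.2 ⟨fun _ => 1, fun N hN l => hN l⟩)
    have hconst : ∀ᶠ N in boxes 𝒮, ∀ c : ℂ, bxc k N (fun _ => c) = c := by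
      filter_upwards [hone] with N hN c
      unfold Pool.Agent.W761.Box.bxc
      rw [Finset.sum_const, Fintype.card_piFinset, nsmul_eq_mul]
      simp only [Finset.card_range]
      push_cast
      have h7 : (∏ i, (N i : ℂ)) ≠ 0 := Finset.prod_ne_zero_iff.2 fun i _ => by
        have h9 : 1 ≤ N i := hN i
        exact_mod_cast (by omega : N i ≠ 0)
      rw [← mul_assoc, inv_mul_cancel₀ h7, one_mul]
    have hmain : ∀ᵐ x ∂μ, Tendsto (fun N => bxc k N fun m => (∏ j, g j (Φ (q j fun l => m l + 1) x) -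
        ∏ j, ∫ y, g j y ∂μ)) (boxes 𝒮) (𝓝 0) := by
      rcases isEmpty_or_nonempty (Fin n) with hn | ⟨⟨j₀⟩⟩
      · refine Eventually.of_forall fun x => ?_
        simp only [Finset.univ_eq_empty, Finset.prod_empty, sub_self]
        refine tendsto_const_nhds.congr' ?_
        filter_upwards [hconst] with N hN
        exact (hN 0).symm
      choose l₀ hl₀ using hne
      obtain ⟨s₀, hs₀⟩ := exists_pos' hK hq (hl₀ j₀)
      exact log_char (J := Fin n) (boxes_le 𝒮) (boxes_gr h𝒮) hK hs₀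
        (q := fun m j => q j (fun l => m l + 1)) (hwide q L hq hL l₀ hl₀)
        (fun j => single hfil.measurePreserving (hsing j)) hg (e := fun j _ => ∫ y, g j y ∂μ)
        (fun j => ⟨measurable_const, ‖∫ y, g j y ∂μ‖, fun x => le_rfl⟩)
        (fun j => @measurable_const _ _ _ ⊥ _) (fun j B hB => by
          rcases MeasurableSpace.measurableSet_bot_iff.1 hB with rfl | rfl
          · simp
          · rw [setIntegral_univ, integral_sub (hgi j) (integrable_const _)]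
            simp)
    have h1 := hrep hfil.measurePreserving q f g hfg
    have h2 : ∏ j, ∫ y, f j y ∂μ = ∏ j, ∫ y, g j y ∂μ :=
      Finset.prod_congr rfl fun j _ => integral_congr_ae (hfg j)
    filter_upwards [hmain, h1] with x hx hx1
    rw [h2]
    have h3 := hx.add_const (∏ j, ∫ y, g j y ∂μ)
    rw [zero_add] at h3
    refine h3.congr' ?_
    filter_upwards [hconst] with M hM
    unfold boxAvg
    rw [avg_Icc, Pool.Agent.W761.Box.bxc_sub, hM, sub_add_cancel]
    congr 1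
    funext m
    exact Finset.prod_congr rfl fun j _ => (hx1 _ j).symm
  refine ⟨fun h𝒴 q L hq hL hv hs => ⟨hext h𝒴 q L hq hL hv hs, hext2 h𝒴 q L hq hL hv hs⟩,
    hact, ?_, ?_⟩
  · intro h𝒴 t P hL hv hs
    obtain ⟨𝒜, hY𝒜, hfil, -⟩ := h𝒴.exists_filtration
    have hpos : HasPositions ℓ (fun j => polyMap t (P j)) (fun j => position ℓ t (P j)) :=
      fun j m => eval_position hfil.hom t (P j) m
    exact ⟨hext h𝒴 (fun j => polyMap t (P j)) _ hpos hL hv hs,
      hext2 h𝒴 (fun j => polyMap t (P j)) _ hpos hL hv hs⟩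
  · intro hKA t P hL hne hs
    have hKA' := hKA
    obtain ⟨𝒜, hfil, -⟩ := hKA'
    exact hact hKA (fun j => polyMap t (P j)) _
      (fun j m => eval_position hfil.hom t (P j) m) hL hne hs

end Pool.Agent.Results.MP_f720ae_an.KolmogorovLogBoxes
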