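import Pool.Agent.U547.KP.P4

/-!
# Unrestricted boxes and polynomials: Kolmogorov extensions and Kolmogorov actions

A group `G` (not necessarily commutative or nilpotent) acts by measure preserving bijections `Φ g` of an
arbitrary probability space `(X, μ)`, and `ℓ : G → ℝ` is a homomorphism. The action is a Kolmogorov
(`K`-) extension of its factor `𝒴` (an arbitrary invariant sub-`σ`-algebra) if there is a `σ`-algebra
`𝒜 ⊇ 𝒴` which decreases under the maps `Φ g` with `ℓ g ≤ 0`, the images of which generate everything, and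
the intersection of whose images is `𝒴` modulo null sets; it is a `K`-action if `𝒴` is trivial.

Let the positions `ℓ (q_j(m))` of the maps `q_j(m)`, `m ∈ ℕ^k`, be polynomials `L_j(m)` with real coefficients; for the
maps `S_j(m) = T_1^{P_1j(m)} ⋯ T_d^{P_dj(m)}` of the problem `L_j = ℓ(T_1) P_1j + ⋯ + ℓ(T_d) P_dj`. Assume that no
difference `L_i - L_j`, `i ≠ j`, is constant, and that for each `j` either `q_j(m) = c b_1^{m_1} ⋯ b_k^{m_k}`, or the averages
of single bounded functions along `q_j` over the boxes converge almost everywhere (the case `n = 1` of the problem).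

* If all variables occur in all the `L_j`, then the factor `𝒴` is characteristic for the averages of
  `∏_j f_j (q_j(m) x)` over the boxes `[M_1] × ⋯ × [M_k]`, almost everywhere and without any restriction on the boxes:
  they are asymptotic to the averages of `∏_j E(f_j | 𝒴) (q_j(m) x)`. So the answer to Q1 for these maps is the same
  for `X` and for its factor `𝒴`.
* For `K`-actions the averages converge to `∏_j ∫ f_j` if no `L_j` is constant and `q_j(m)` does not depend on `m_l`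
  whenever this variable does not occur in `L_j`.

The main points are an exponential inequality for the sums along the lines parallel to the longest side of the box, which are
divided into classes of times with separated positions, and a bound for the number of the lines on which many
positions are close to each other.
-/

set_option autoImplicit false

open Filter Topology MeasureTheory
open scoped ENNReal

namespace Pool.Agent.Results.MP_f720ae_an.KolmogorovPolynomialBoxes

/-- The average of `F` over the box `[1, M_1] × ⋯ × [1, M_k]`. -/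
noncomputable def boxAvg {k : ℕ} (M : Fin k → ℕ) (F : (Fin k → ℕ) → ℂ) : ℂ :=
  (∏ l, (M l : ℂ))⁻¹ * ∑ m ∈ Fintype.piFinset (fun l => Finset.Icc 1 (M l)), F m

/-- `t_1^{P_1(m)} ⋯ t_d^{P_d(m)}` -/
noncomputable def polyMap {G : Type} [Group G] {d k : ℕ} (t : Fin d → G)
    (P : Fin d → MvPolynomial (Fin k) ℤ) (m : Fin k → ℕ) : G :=
  (List.ofFn fun i => t i ^ MvPolynomial.eval (fun l => (m l : ℤ)) (P i)).prod

/-- `ℓ(t_1) P_1 + ⋯ + ℓ(t_d) P_d` -/
noncomputable def position {G : Type} {d k : ℕ} (ℓ : G → ℝ) (t : Fin d → G)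
    (P : Fin d → MvPolynomial (Fin k) ℤ) : MvPolynomial (Fin k) ℝ :=
  ∑ i, MvPolynomial.C (ℓ (t i)) * MvPolynomial.map (Int.castRingHom ℝ) (P i)

/-- `ℓ (q j m) = L_j(m)` -/
def HasPositions {G : Type} {k n : ℕ} (ℓ : G → ℝ) (q : Fin n → (Fin k → ℕ) → G)
    (L : Fin n → MvPolynomial (Fin k) ℝ) : Prop :=
  ∀ j m, ℓ (q j m) = MvPolynomial.eval (fun l => (m l : ℝ)) (L j)

/-- The differences `L_i - L_j`, `i ≠ j`, are not constant. -/
def Distinct {k n : ℕ} (L : Fin n → MvPolynomial (Fin k) ℝ) : Prop :=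
  ∀ i j, i ≠ j → (L i - L j).vars.Nonempty

/-- `ℓ` is a homomorphism to the reals, the maps `Φ g` preserve `μ`, the `σ`-algebra `𝒜` decreases under the maps
`Φ g` with `ℓ g ≤ 0`, and the `σ`-algebras `(Φ g)⁻¹ 𝒜` generate all measurable sets modulo `μ`. -/
structure IsFiltered {X G : Type} [Group G] (𝒜 : MeasurableSpace X) {mX : MeasurableSpace X}
    (μ : Measure X) (Φ : G →* Equiv.Perm X) (ℓ : G → ℝ) : Prop where
  measurePreserving : ∀ g, MeasurePreserving (Φ g) μ μ
  hom : ∀ g h, ℓ (g * h) = ℓ g + ℓ h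
  le : 𝒜 ≤ mX
  mono : ∀ g, ℓ g ≤ 0 → 𝒜.comap (Φ g : X → X) ≤ 𝒜
  generates : ∀ B, MeasurableSet[mX] B →
    ∃ B', MeasurableSet[⨆ g, 𝒜.comap (Φ g : X → X)] B' ∧ B =ᵐ[μ] B'

/-- The action is a Kolmogorov extension of its factor `𝒴`. -/
structure IsKolmogorovExtension {X G : Type} [Group G] (𝒴 : MeasurableSpace X)
    {mX : MeasurableSpace X} (μ : Measure X) (Φ : G →* Equiv.Perm X) (ℓ : G → ℝ) : Prop where
  invariant : ∀ g, Measurable[𝒴, 𝒴] (Φ g : X → X)
  exists_filtration : ∃ 𝒜 : MeasurableSpace X, 𝒴 ≤ 𝒜 ∧ IsFiltered 𝒜 μ Φ ℓ ∧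
    ∀ B, (∀ g, MeasurableSet[𝒜.comap (Φ g : X → X)] B) →
      ∃ B', MeasurableSet[𝒴] B' ∧ B =ᵐ[μ] B'

/-- The action is a Kolmogorov action: the intersection of the `σ`-algebras `(Φ g)⁻¹ 𝒜` is trivial. -/
def IsKolmogorovAction {X G : Type} [Group G] {mX : MeasurableSpace X} (μ : Measure X)
    (Φ : G →* Equiv.Perm X) (ℓ : G → ℝ) : Prop :=
  ∃ 𝒜 : MeasurableSpace X, IsFiltered 𝒜 μ Φ ℓ ∧
    ∀ B, (∀ g, MeasurableSet[𝒜.comap (Φ g : X → X)] B) → μ B = 0 ∨ μ B = 1

/-- `g(m) = c b_1^{m_1} ⋯ b_k^{m_k}`, or the averages over the boxes of every bounded measurable function along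
the maps `g(m)` converge almost everywhere. -/
def SingleAverages {X G : Type} [Group G] {mX : MeasurableSpace X} {k : ℕ} (μ : Measure X)
    (Φ : G →* Equiv.Perm X) (g : (Fin k → ℕ) → G) : Prop :=
  (∃ (c : G) (b : Fin k → G), ∀ m, g m = c * (List.ofFn fun l => b l ^ m l).prod) ∨
    ∀ H : X → ℝ, Measurable H → (∃ C : ℝ, ∀ x, |H x| ≤ C) →
      ∀ᵐ x ∂μ, ∃ L : ℝ, Tendsto (fun M : Fin k → ℕ => (∏ l, (M l : ℝ))⁻¹ *
        ∑ m ∈ Fintype.piFinset (fun l => Finset.Icc 1 (M l)), H (Φ (g m) x)) atTop (𝓝 L)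

open Pool.Agent.W761.Gauss (BM_of_memLp)
open Pool.Agent.W761.Box (BM Good1 bxc bx)
open Pool.Agent.TH784.KE (KExt pos exists_cond bx_eq)
open Pool.Agent.U547.KB
open Pool.Agent.U547.KP

theorem kext {X G : Type} [Group G] {𝒜 𝒴 mX : MeasurableSpace X} {μ : Measure X}
    {Φ : G →* Equiv.Perm X} {ℓ : G → ℝ}
    (h : IsFiltered 𝒜 μ Φ ℓ) (hinv : ∀ g, Measurable[𝒴, 𝒴] (Φ g : X → X)) (hY : 𝒴 ≤ 𝒜)
    (ht : ∀ B, (∀ g, MeasurableSet[𝒜.comap (Φ g : X → X)] B) →
      ∃ B', MeasurableSet[𝒴] B' ∧ B =ᵐ[μ] B') : KExt μ 𝒜 𝒴 Φ ℓ :=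
  ⟨h.measurePreserving, ⟨h.hom, h.le, h.mono⟩, ⟨hY, hinv⟩, h.generates, ht⟩

theorem single {X G : Type} [Group G] {mX : MeasurableSpace X} {μ : Measure X}
    [IsProbabilityMeasure μ] {Φ : G →* Equiv.Perm X} (hmp : ∀ g, MeasurePreserving (Φ g) μ μ)
    {k : ℕ} {g : (Fin k → ℕ) → G} (h : SingleAverages μ Φ g) :
    Good1 μ fun m : Fin k → ℕ => (Φ (g fun l => m l + 1) : X → X) := by
  rcases h with ⟨c, b, h⟩ | h
  · have h1 := single_pr hmp c b
    have e : (fun m : Fin k → ℕ => (Φ (c * pr b m) : X → X)) = fun m => (Φ (g m) : X → X) := by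
      funext m
      rw [h]
      rfl
    rw [e] at h1
    exact (single_iff (μ := μ) (fun m => (Φ (g m) : X → X))).1 h1
  · exact (single_iff (μ := μ) (fun m => (Φ (g m) : X → X))).1 h

theorem degreeOf_pos {k : ℕ} {L : MvPolynomial (Fin k) ℝ} {l : Fin k} (h : l ∈ L.vars) :
    0 < L.degreeOf l := by
  rw [MvPolynomial.vars_def, Multiset.mem_toFinset] at h
  rw [MvPolynomial.degreeOf_def, Multiset.count_pos]
  exact h

theorem ev_shift {G : Type} {k n : ℕ} {ℓ : G → ℝ} {q : Fin n → (Fin k → ℕ) → G}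
    {L : Fin n → MvPolynomial (Fin k) ℝ} (h : HasPositions ℓ q L) (m : Fin k → ℕ) (j : Fin n) :
    ℓ (q j fun l => m l + 1) = ev (L j) m := by
  rw [h, ev]
  congr 2
  funext l
  push_cast
  rfl

theorem exists_pos' {X G : Type} [Group G] {𝒜 𝒴 mX : MeasurableSpace X} {μ : Measure X}
    {Φ : G →* Equiv.Perm X} {ℓ : G → ℝ} (hK : KExt μ 𝒜 𝒴 Φ ℓ)
    {k n : ℕ} {q : Fin n → (Fin k → ℕ) → G} {L : Fin n → MvPolynomial (Fin k) ℝ}
    (h : HasPositions ℓ q L) {j : Fin n} {l : Fin k} (hl : l ∈ (L j).vars) :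
    ∃ s₀ : G, 0 < ℓ s₀ := by
  classical
  have h1 := values_null (L j) l (degreeOf_pos hl) one_pos
  have h2 : ∃ m : Fin k → ℕ, 1 ≤ |ev (L j) m| := by
    by_contra hcon
    push Not at hcon
    have h3 : ∀ᶠ N : Fin k → ℕ in atTop,
        frac (fun n : Fin k → ℕ => |ev (L j) n| < 1) N = 1 := by
      refine eventually_atTop.2 ⟨fun _ => 1, fun N hN => ?_⟩
      rw [frac_eq, bx_eq]
      simp only [hcon, if_true]
      rw [Finset.sum_const, nsmul_eq_mul, mul_one, Pool.Agent.TH784.AA.card_bxs]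
      exact inv_mul_cancel₀ (Pool.Agent.TH784.AA.vol_pos hN).ne'
    have h4 := Tendsto.congr' h3 h1
    exact zero_ne_one (tendsto_nhds_unique h4 tendsto_const_nhds)
  obtain ⟨m, hm⟩ := h2
  rw [← ev_shift h] at hm
  rcases lt_trichotomy (ℓ (q j fun l => m l + 1)) 0 with h4 | h4 | h4
  · exact ⟨(q j fun l => m l + 1)⁻¹, by
      rw [hK.filt.inv]
      linarith⟩
  · rw [h4, abs_zero] at hm
    linarith
  · exact ⟨_, h4⟩

theorem eval_position {G : Type} [Group G] {d k : ℕ} {ℓ : G → ℝ}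
    (hom : ∀ g h, ℓ (g * h) = ℓ g + ℓ h) (t : Fin d → G) (P : Fin d → MvPolynomial (Fin k) ℤ)
    (m : Fin k → ℕ) :
    ℓ (polyMap t P m) = MvPolynomial.eval (fun l => (m l : ℝ)) (position ℓ t P) := by
  have h1 : ℓ 1 = 0 := by
    have := hom 1 1
    rw [mul_one] at this
    linarith
  have hinv : ∀ g : G, ℓ g⁻¹ = -ℓ g := by
    intro g
    have := hom g g⁻¹
    rw [mul_inv_cancel, h1] at this
    linarith
  have hpow : ∀ (g : G) (t : ℕ), ℓ (g ^ t) = t * ℓ g := by
    intro g t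
    induction t with
    | zero => simp [h1]
    | succ t ih =>
      rw [pow_succ, hom, ih]
      push_cast
      ring
  have hzpow : ∀ (g : G) (t : ℤ), ℓ (g ^ t) = t * ℓ g := by
    intro g t
    obtain ⟨k, rfl | rfl⟩ := t.eq_nat_or_neg
    · rw [zpow_natCast, hpow]
      simp
    · rw [zpow_neg, zpow_natCast, hinv, hpow]
      push_cast
      ring
  have hlist : ∀ L : List G, ℓ L.prod = (L.map ℓ).sum := by
    intro L
    induction L with
    | nil => simp [h1]
    | cons a L ih => rw [List.prod_cons, hom, ih, List.map_cons, List.sum_cons]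
  have hcast : ∀ Q : MvPolynomial (Fin k) ℤ,
      MvPolynomial.eval (fun l => (m l : ℝ)) (MvPolynomial.map (Int.castRingHom ℝ) Q) =
        ((MvPolynomial.eval (fun l => (m l : ℤ)) Q : ℤ) : ℝ) := by
    intro Q
    induction Q using MvPolynomial.induction_on with
    | C a => simp
    | add p q hp hq =>
      rw [map_add, map_add, map_add, hp, hq]
      push_cast
      rfl
    | mul_X p i hp =>
      rw [map_mul, map_mul, map_mul, hp, MvPolynomial.map_X, MvPolynomial.eval_X,
        MvPolynomial.eval_X]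
      push_cast
      rfl
  rw [polyMap, hlist, List.map_ofFn, List.sum_ofFn, position, map_sum]
  refine Finset.sum_congr rfl fun i _ => ?_
  rw [Function.comp_apply, hzpow, map_mul, MvPolynomial.eval_C, hcast, mul_comm]

theorem polyMap_update {G : Type} [Group G] {d k : ℕ} (t : Fin d → G)
    (P : Fin d → MvPolynomial (Fin k) ℤ) {l : Fin k} (h : ∀ i, l ∉ (P i).vars) (m : Fin k → ℕ)
    (s : ℕ) : polyMap t P (Function.update m l s) = polyMap t P m := by
  unfold polyMap
  congr 2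
  funext i
  congr 1
  refine MvPolynomial.eval₂Hom_congr' rfl (fun l' h1 _ => ?_) rfl
  have h2 : l' ≠ l := fun e => h i (e ▸ h1)
  rw [Function.update_of_ne h2]

/-- Let `(X, μ)` be a probability space, `G` a group acting on it, `ℓ : G → ℝ`, and `f_1, …, f_n ∈ L^∞`; boxes are
unrestricted (`min_l M_l → ∞`). Let `ℓ (q_j(m)) = L_j(m)` with real polynomials `L_j` in `k` variables, no `L_i - L_j`
(`i ≠ j`) constant, and let the averages of single functions along each `q_j` converge.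
1. If `X` is a Kolmogorov extension of its factor `𝒴` and all variables occur in all `L_j`, then for almost every `x` the
averages of `∏_j f_j (q_j(m) x)` and of `∏_j E(f_j | 𝒴) (q_j(m) x)` have difference tending to zero; hence if the averages
of bounded `𝒴`-measurable functions converge almost everywhere, then so do those of all functions in `L^∞`.
2. For Kolmogorov actions the averages converge to `∏_j ∫ f_j` if no `L_j` is constant and `q_j(m)` does not depend on `m_l`
when this variable does not occur in `L_j`.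
3., 4. The same for the maps `t_1^{P_1j(m)} ⋯ t_d^{P_dj(m)}` with `P_ij ∈ ℤ[m_1, …, m_k]` and
`L_j = ℓ(t_1) P_1j + ⋯ + ℓ(t_d) P_dj`. -/
theorem result {X G : Type} [Group G] (𝒴 : MeasurableSpace X) [mX : MeasurableSpace X]
    (μ : Measure X) [IsProbabilityMeasure μ] (Φ : G →* Equiv.Perm X) (ℓ : G → ℝ) (d k n : ℕ)
    (hk : 1 ≤ k) :
    (IsKolmogorovExtension 𝒴 μ Φ ℓ →
      ∀ (q : Fin n → (Fin k → ℕ) → G) (L : Fin n → MvPolynomial (Fin k) ℝ), HasPositions ℓ q L →
        Distinct L → (∀ j l, l ∈ (L j).vars) →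
        (∀ j, SingleAverages μ Φ (q j)) →
        (∀ f : Fin n → X → ℂ, (∀ j, MemLp (f j) ∞ μ) → ∀ᵐ x ∂μ, Tendsto (fun M : Fin k → ℕ =>
          boxAvg M (fun m => ∏ j, f j (Φ (q j m) x)) -
            boxAvg M (fun m => ∏ j, (μ[f j | 𝒴]) (Φ (q j m) x))) atTop (𝓝 0)) ∧
        ((∀ e : Fin n → X → ℂ, (∀ j, Measurable[𝒴] (e j) ∧ ∃ C : ℝ, ∀ x, ‖e j x‖ ≤ C) →
          ∀ᵐ x ∂μ, ∃ A, Tendsto (fun M : Fin k → ℕ =>
            boxAvg M fun m => ∏ j, e j (Φ (q j m) x)) atTop (𝓝 A)) →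
          ∀ f : Fin n → X → ℂ, (∀ j, MemLp (f j) ∞ μ) → ∀ᵐ x ∂μ, ∃ A, Tendsto
            (fun M : Fin k → ℕ => boxAvg M fun m => ∏ j, f j (Φ (q j m) x)) atTop (𝓝 A))) ∧
    (IsKolmogorovAction μ Φ ℓ →
      ∀ (q : Fin n → (Fin k → ℕ) → G) (L : Fin n → MvPolynomial (Fin k) ℝ), HasPositions ℓ q L →
        Distinct L → (∀ j, (L j).vars.Nonempty) →
        (∀ j l, l ∉ (L j).vars → ∀ m s, q j (Function.update m l s) = q j m) →
        (∀ j, SingleAverages μ Φ (q j)) →
        ∀ f : Fin n → X → ℂ, (∀ j, MemLp (f j) ∞ μ) → ∀ᵐ x ∂μ, Tendsto (fun M : Fin k → ℕ =>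
          boxAvg M fun m => ∏ j, f j (Φ (q j m) x)) atTop (𝓝 (∏ j, ∫ y, f j y ∂μ))) ∧
    (IsKolmogorovExtension 𝒴 μ Φ ℓ →
      ∀ (t : Fin d → G) (P : Fin n → Fin d → MvPolynomial (Fin k) ℤ),
        Distinct (fun j => position ℓ t (P j)) → (∀ j l, l ∈ (position ℓ t (P j)).vars) →
        (∀ j, SingleAverages μ Φ (polyMap t (P j))) →
        (∀ f : Fin n → X → ℂ, (∀ j, MemLp (f j) ∞ μ) → ∀ᵐ x ∂μ, Tendsto (fun M : Fin k → ℕ =>
          boxAvg M (fun m => ∏ j, f j (Φ (polyMap t (P j) m) x)) -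
            boxAvg M (fun m => ∏ j, (μ[f j | 𝒴]) (Φ (polyMap t (P j) m) x))) atTop (𝓝 0)) ∧
        ((∀ e : Fin n → X → ℂ, (∀ j, Measurable[𝒴] (e j) ∧ ∃ C : ℝ, ∀ x, ‖e j x‖ ≤ C) →
          ∀ᵐ x ∂μ, ∃ A, Tendsto (fun M : Fin k → ℕ =>
            boxAvg M fun m => ∏ j, e j (Φ (polyMap t (P j) m) x)) atTop (𝓝 A)) →
          ∀ f : Fin n → X → ℂ, (∀ j, MemLp (f j) ∞ μ) → ∀ᵐ x ∂μ, ∃ A, Tendsto
            (fun M : Fin k → ℕ => boxAvg M fun m => ∏ j, f j (Φ (polyMap t (P j) m) x))
            atTop (𝓝 A))) ∧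
    (IsKolmogorovAction μ Φ ℓ →
      ∀ (t : Fin d → G) (P : Fin n → Fin d → MvPolynomial (Fin k) ℤ),
        Distinct (fun j => position ℓ t (P j)) → (∀ j, (position ℓ t (P j)).vars.Nonempty) →
        (∀ j i, (P j i).vars ⊆ (position ℓ t (P j)).vars) →
        (∀ j, SingleAverages μ Φ (polyMap t (P j))) →
        ∀ f : Fin n → X → ℂ, (∀ j, MemLp (f j) ∞ μ) → ∀ᵐ x ∂μ, Tendsto (fun M : Fin k → ℕ =>
          boxAvg M fun m => ∏ j, f j (Φ (polyMap t (P j) m) x)) atTop
            (𝓝 (∏ j, ∫ y, f j y ∂μ))) := by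
  -- bounded representatives
  have hBM : ∀ f : Fin n → X → ℂ, (∀ j, MemLp (f j) ∞ μ) → ∃ g : Fin n → X → ℂ,
      (∀ j, BM (g j)) ∧ ∀ j, f j =ᵐ[μ] g j := by
    intro f hf
    choose g hg hfg using fun j => BM_of_memLp (hf j)
    exact ⟨g, hg, hfg⟩
  have hrep : ∀ (hmp : ∀ g, MeasurePreserving (Φ g) μ μ) (q : Fin n → (Fin k → ℕ) → G)
      (f g : Fin n → X → ℂ), (∀ j, f j =ᵐ[μ] g j) →
      ∀ᵐ x ∂μ, ∀ (m : Fin k → ℕ) (j : Fin n), f j (Φ (q j m) x) = g j (Φ (q j m) x) := by
    intro hmp q f g hfg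
    rw [ae_all_iff]
    intro m
    rw [ae_all_iff]
    intro j
    exact (hmp _).quasiMeasurePreserving.ae (hfg j)
  -- positions
  have hwide : ∀ (q : Fin n → (Fin k → ℕ) → G) (L : Fin n → MvPolynomial (Fin k) ℝ),
      HasPositions ℓ q L → Distinct L → Wide Finset.univ
        (fun v => Finset.univ.filter fun l => 0 < (L v).degreeOf l)
        (fun (m : Fin k → ℕ) j => ℓ (q j fun l => m l + 1)) := by
    intro q L hq hL
    refine wide_poly L (fun m j => ev_shift hq m j) fun v _ w _ hvw => ?_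
    obtain ⟨l, hl⟩ := hL v w hvw
    exact ⟨l, degreeOf_pos hl⟩
  -- extensions
  have hext : IsKolmogorovExtension 𝒴 μ Φ ℓ →
      ∀ (q : Fin n → (Fin k → ℕ) → G) (L : Fin n → MvPolynomial (Fin k) ℝ), HasPositions ℓ q L →
        Distinct L → (∀ j l, l ∈ (L j).vars) →
        (∀ j, SingleAverages μ Φ (q j)) →
        ∀ f : Fin n → X → ℂ, (∀ j, MemLp (f j) ∞ μ) → ∀ᵐ x ∂μ, Tendsto (fun M : Fin k → ℕ =>
          boxAvg M (fun m => ∏ j, f j (Φ (q j m) x)) -
            boxAvg M (fun m => ∏ j, (μ[f j | 𝒴]) (Φ (q j m) x))) atTop (𝓝 0) := by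
    intro h𝒴 q L hq hL hvar hsing f hf
    rcases isEmpty_or_nonempty (Fin n) with hn | ⟨⟨j₀⟩⟩
    · refine Eventually.of_forall fun x => ?_
      simp
    choose g hg hfg using fun j => BM_of_memLp (hf j)
    obtain ⟨hinv, 𝒜, hY𝒜, hfil, htail⟩ := h𝒴
    have hK : KExt μ 𝒜 𝒴 Φ ℓ := kext hfil hinv hY𝒜 htail
    obtain ⟨s₀, hs₀⟩ := exists_pos' hK hq (hvar j₀ ⟨0, hk⟩)
    choose e he heY hee hfe using fun j => exists_cond (μ := μ) (hY𝒜.trans hfil.le) (hg j)
    have hw := hwide q L hq hL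
    have hdep : (fun v : Fin n => Finset.univ.filter fun l => 0 < (L v).degreeOf l) =
        fun _ => Finset.univ := by
      funext v
      ext l
      simp [degreeOf_pos (hvar v l)]
    rw [hdep] at hw
    have hmain := wide_char (J := Fin n) (by omega : 0 < k) hK hs₀
      (q := fun m j => q j (fun l => m l + 1)) hw
      (fun j => maj_of_good (fun m => hfil.measurePreserving _)
        (single hfil.measurePreserving (hsing j))) hg he heY hfe
    have h1 := hrep hfil.measurePreserving q f g hfg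
    have h2 := hrep hfil.measurePreserving q (fun j => μ[f j | 𝒴]) e
      (fun j => (condExp_congr_ae (hfg j)).trans (hee j).symm)
    filter_upwards [hmain, h1, h2] with x hx hx1 hx2
    refine hx.congr fun M => ?_
    unfold boxAvg
    rw [avg_Icc, avg_Icc, ← Pool.Agent.W761.Box.bxc_sub]
    congr 1
    funext m
    congr 1
    · exact Finset.prod_congr rfl fun j _ => (hx1 _ j).symm
    · exact Finset.prod_congr rfl fun j _ => (hx2 _ j).symm
  -- transfer
  have hext2 : IsKolmogorovExtension 𝒴 μ Φ ℓ →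
      ∀ (q : Fin n → (Fin k → ℕ) → G) (L : Fin n → MvPolynomial (Fin k) ℝ), HasPositions ℓ q L →
        Distinct L → (∀ j l, l ∈ (L j).vars) →
        (∀ j, SingleAverages μ Φ (q j)) →
        ((∀ e : Fin n → X → ℂ, (∀ j, Measurable[𝒴] (e j) ∧ ∃ C : ℝ, ∀ x, ‖e j x‖ ≤ C) →
          ∀ᵐ x ∂μ, ∃ A, Tendsto (fun M : Fin k → ℕ =>
            boxAvg M fun m => ∏ j, e j (Φ (q j m) x)) atTop (𝓝 A)) →
          ∀ f : Fin n → X → ℂ, (∀ j, MemLp (f j) ∞ μ) → ∀ᵐ x ∂μ, ∃ A, Tendsto
            (fun M : Fin k → ℕ => boxAvg M fun m => ∏ j, f j (Φ (q j m) x)) atTop (𝓝 A)) := by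
    intro h𝒴 q L hq hL hvar hsing hbase f hf
    have h1 := hext h𝒴 q L hq hL hvar hsing f hf
    obtain ⟨𝒜, hY𝒜, hfil, -⟩ := h𝒴.exists_filtration
    obtain ⟨g, hg, hfg⟩ := hBM f hf
    choose e he heY hee hfe using fun j => exists_cond (μ := μ) (hY𝒜.trans hfil.le) (hg j)
    have h2 := hbase e (fun j => ⟨heY j, (he j).2⟩)
    have h3 := hrep hfil.measurePreserving q
      (fun j => μ[f j | 𝒴]) e (fun j => (condExp_congr_ae (hfg j)).trans (hee j).symm)
    filter_upwards [h1, h2, h3] with x hx1 hx2 hx3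
    obtain ⟨A, hA⟩ := hx2
    refine ⟨0 + A, (hx1.add hA).congr fun M => ?_⟩
    have h4 : boxAvg M (fun m => ∏ j, (μ[f j | 𝒴]) (Φ (q j m) x)) =
        boxAvg M (fun m => ∏ j, e j (Φ (q j m) x)) := by
      congr 1
      funext m
      exact Finset.prod_congr rfl fun j _ => hx3 m j
    rw [h4]
    ring
  -- actions
  have hact : IsKolmogorovAction μ Φ ℓ →
      ∀ (q : Fin n → (Fin k → ℕ) → G) (L : Fin n → MvPolynomial (Fin k) ℝ), HasPositions ℓ q L →
        Distinct L → (∀ j, (L j).vars.Nonempty) →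
        (∀ j l, l ∉ (L j).vars → ∀ m s, q j (Function.update m l s) = q j m) →
        (∀ j, SingleAverages μ Φ (q j)) →
        ∀ f : Fin n → X → ℂ, (∀ j, MemLp (f j) ∞ μ) → ∀ᵐ x ∂μ, Tendsto (fun M : Fin k → ℕ =>
          boxAvg M fun m => ∏ j, f j (Φ (q j m) x)) atTop (𝓝 (∏ j, ∫ y, f j y ∂μ)) := by
    intro hKA q L hq hL hne hqd hsing f hf
    choose g hg hfg using fun j => BM_of_memLp (hf j)
    obtain ⟨𝒜, hfil, htail⟩ := hKA
    have hK : KExt μ 𝒜 ⊥ Φ ℓ := by
      refine kext hfil (fun g => ?_) bot_le fun B hB => ?_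
      · intro s hs
        rcases MeasurableSpace.measurableSet_bot_iff.1 hs with rfl | rfl
        · simp
        · simp
      · rcases htail B hB with h | h
        · exact ⟨∅, MeasurableSpace.measurableSet_empty ⊥, ae_eq_empty.2 h⟩
        · refine ⟨Set.univ, @MeasurableSet.univ X ⊥, ?_⟩
          have hB' : MeasurableSet[mX] B := by
            have h3 := hB 1
            rw [map_one] at h3
            have h4 : 𝒜.comap ((1 : Equiv.Perm X) : X → X) = 𝒜 := by
              rw [Equiv.Perm.coe_one]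
              exact MeasurableSpace.comap_id
            rw [h4] at h3
            exact hfil.le _ h3
          rw [ae_eq_univ]
          exact (prob_compl_eq_zero_iff hB').2 h
    have hmain : ∀ᵐ x ∂μ, Tendsto (fun N => bxc k N fun m => ∏ j, g j (Φ (q j fun l => m l + 1) x))
        atTop (𝓝 (∏ j, ∫ y, g j y ∂μ)) := by
      rcases isEmpty_or_nonempty (Fin n) with hn | ⟨⟨j₀⟩⟩
      · refine Eventually.of_forall fun x => ?_
        simp only [Finset.univ_eq_empty, Finset.prod_empty]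
        refine tendsto_const_nhds.congr' ?_
        refine eventually_atTop.2 ⟨fun _ => 1, fun N hN => ?_⟩
        show (1 : ℂ) = (∏ j, (N j : ℂ))⁻¹ *
          ∑ m ∈ Fintype.piFinset (fun j => Finset.range (N j)), (1 : ℂ)
        rw [Finset.sum_const, Fintype.card_piFinset, nsmul_eq_mul, mul_one]
        simp only [Finset.card_range]
        push_cast
        have h7 : (∏ i, (N i : ℂ)) ≠ 0 := Finset.prod_ne_zero_iff.2 fun i _ => by
          have h9 : 1 ≤ N i := hN i
          exact_mod_cast (by omega : N i ≠ 0)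
        rw [inv_mul_cancel₀ h7]
      obtain ⟨l₀, hl₀⟩ := hne j₀
      obtain ⟨s₀, hs₀⟩ := exists_pos' hK hq hl₀
      exact act_wide (J := Fin n) hK hs₀ (q := fun m j => q j (fun l => m l + 1)) (hwide q L hq hL)
        (fun j l hl m s => by
          have hl' : l ∉ (L j).vars := fun h =>
            hl (Finset.mem_filter.2 ⟨Finset.mem_univ l, degreeOf_pos h⟩)
          have h3 : (fun i => Function.update m l s i + 1) =
              Function.update (fun i => m i + 1) l (s + 1) := by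
            funext i
            by_cases hi : i = l
            · subst hi
              simp
            · simp [hi]
          rw [h3]
          exact hqd j l hl' _ _)
        (fun j => by
          obtain ⟨l, hl⟩ := hne j
          exact ⟨l, Finset.mem_filter.2 ⟨Finset.mem_univ l, degreeOf_pos hl⟩⟩)
        (fun j => single hfil.measurePreserving (hsing j)) hg
    have h1 := hrep hfil.measurePreserving q f g hfg
    have h2 : ∏ j, ∫ y, f j y ∂μ = ∏ j, ∫ y, g j y ∂μ :=
      Finset.prod_congr rfl fun j _ => integral_congr_ae (hfg j)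
    filter_upwards [hmain, h1] with x hx hx1
    rw [h2]
    refine hx.congr fun M => ?_
    unfold boxAvg
    rw [avg_Icc]
    congr 1
    funext m
    exact Finset.prod_congr rfl fun j _ => (hx1 _ j).symm
  refine ⟨fun h𝒴 q L hq hL hv hs => ⟨hext h𝒴 q L hq hL hv hs, hext2 h𝒴 q L hq hL hv hs⟩,
    hact, ?_, ?_⟩
  · intro h𝒴 t P hL hv hs
    obtain ⟨𝒜, hY𝒜, hfil, -⟩ := h𝒴.exists_filtration
    have hpos : HasPositions ℓ (fun j => polyMap t (P j)) (fun j => position ℓ t (P j)) :=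
      fun j m => eval_position hfil.hom t (P j) m
    exact ⟨hext h𝒴 (fun j => polyMap t (P j)) _ hpos hL hv hs,
      hext2 h𝒴 (fun j => polyMap t (P j)) _ hpos hL hv hs⟩
  · intro hKA t P hL hne hsub hs
    have hKA' := hKA
    obtain ⟨𝒜, hfil, -⟩ := hKA'
    exact hact hKA (fun j => polyMap t (P j)) _
      (fun j m => eval_position hfil.hom t (P j) m) hL hne
      (fun j l hl m s => polyMap_update t (P j) (fun i h => hl (hsub j i h)) m s) hs

end Pool.Agent.Results.MP_f720ae_an.KolmogorovPolynomialBoxes
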