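import Pool.Agent.U946.RS.Fre

set_option autoImplicit false

/-!
# The Furstenberg-Bergelson-Leibman conjecture as a question about random subsets of free nilpotent groups

`Q1` is the assertion of the problem (in the form of the frozen statement). It is equivalent to each of the following.

* `OneSet`: the assertion for `f_1 = ... = f_n = 1_E`, one set `E`.
* `Random`: for every nilpotent group `G`, all `t_1, ..., t_d` in `G` and integer polynomials `P_(i,j)` in `k` variables,
  and for every random subset `R` of `G` whose law is invariant under the translations, almost surely the set of the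
  `m` in `ℕ^k` with `t_1^(P_(1,j)(m)) ⋯ t_d^(P_(d,j)(m)) ∈ R` for all `j` has a density along the boxes
  `[0, M_1) × ... × [0, M_k)`, `min M_i → ∞`.
* `RandomFree`: the same for the free nilpotent groups `N(d,s)` of rank `d` and step `s` and their generators only.

So no probability space, no transformations and no functions are left: for each `(d, s)` there is one countable group, one
system of generators, and the translation invariant measures on the compact space of its subsets.

Proof. By multilinearity and uniform approximation one needs the functions `1_(A_1), ..., 1_(A_n)` only. One more map, the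
rotation of `ℤ/(n+1)` with the constant exponents `P_(0,j) = j`, puts them into one set `E`, the union of the
`{j} × A_j`. The group generated by the maps is a quotient of a free nilpotent group `G`, and the random subset of `G` is
the set of the `g` with `g y ∈ E`.
-/

namespace Pool.Agent.Results.MP_f720ae_an.RandomSubsets

open MeasureTheory Filter Finset
open Pool.Agent.U946.RS (word FreeNil gen)

/-- the assertion of the problem (frozen statement) -/
def Q1 : Prop :=
  ∀ (d k n : ℕ) (X : Type) [MeasurableSpace X] (μ : MeasureTheory.Measure X)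
    [MeasureTheory.IsProbabilityMeasure μ] (T : Fin d → Equiv.Perm X),
    (∀ i, Measurable (T i) ∧ Measurable (T i).symm ∧
      MeasureTheory.MeasurePreserving (T i) μ μ) →
    Group.IsNilpotent ↥(Subgroup.closure (Set.range T)) →
    ∀ (P : Fin d → Fin n → MvPolynomial (Fin k) ℤ) (f : Fin n → X → ℝ),
    (∀ j, MeasureTheory.MemLp (f j) ⊤ μ) →
    ∀ᵐ x ∂μ, ∃ L : ℝ, Filter.Tendsto
      (fun M : Fin k → ℕ => (∏ j, (M j : ℝ))⁻¹ *
        ∑ m ∈ Fintype.piFinset (fun j => Finset.range (M j)),
          ∏ j : Fin n, f j ((List.ofFn (fun i : Fin d =>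
            T i ^ (MvPolynomial.eval (fun l => ((m l : ℕ) : ℤ)) (P i j)))).prod x))
      Filter.atTop (nhds L)

open Classical in
/-- the set `A` has a density along boxes, `min M_i → ∞` -/
def HasDensity {k : ℕ} (A : Set (Fin k → ℕ)) : Prop :=
  ∃ L : ℝ, Tendsto (fun M : Fin k → ℕ =>
    (((Fintype.piFinset (fun j => Finset.range (M j))).filter (fun m => m ∈ A)).card : ℝ) / ∏ j, (M j : ℝ))
    atTop (nhds L)

/-- one set -/
def OneSet : Prop :=
  ∀ (d k n : ℕ) (X : Type) [MeasurableSpace X] (μ : Measure X) [IsProbabilityMeasure μ] (T : Fin d → Equiv.Perm X),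
    (∀ i, Measurable (T i) ∧ Measurable (T i).symm ∧ MeasurePreserving (T i) μ μ) →
    Group.IsNilpotent ↥(Subgroup.closure (Set.range T)) →
    ∀ (P : Fin d → Fin n → MvPolynomial (Fin k) ℤ) (E : Set X), MeasurableSet E →
      ∀ᵐ x ∂μ, HasDensity {m | ∀ j, word T (fun i => P i j) m x ∈ E}

/-- `ν` is the law of a random subset of `G` which is invariant under the translations -/
def IsInvariantLaw {G : Type} [Group G] (ν : Measure (G → Bool)) : Prop :=
  IsProbabilityMeasure ν ∧ ∀ g : G, MeasurePreserving (fun (R : G → Bool) h => R (h * g)) ν ν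

/-- random subsets of nilpotent groups -/
def Random : Prop :=
  ∀ (G : Type) [Group G], Group.IsNilpotent G → ∀ (d k n : ℕ) (t : Fin d → G)
    (P : Fin d → Fin n → MvPolynomial (Fin k) ℤ) (ν : Measure (G → Bool)), IsInvariantLaw ν →
      ∀ᵐ R ∂ν, HasDensity {m | ∀ j, R (word t (fun i => P i j) m) = true}

/-- random subsets of free nilpotent groups -/
def RandomFree : Prop :=
  ∀ (d s k n : ℕ) (P : Fin d → Fin n → MvPolynomial (Fin k) ℤ) (ν : Measure (FreeNil d s → Bool)),
    IsInvariantLaw ν → ∀ᵐ R ∂ν, HasDensity {m | ∀ j, R (word (gen d s) (fun i => P i j) m) = true}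

open Pool.Agent.U946.RS in
lemma density_iff {k : ℕ} (A : Set (Fin k → ℕ)) (φ : (Fin k → ℕ) → ℝ) (h1 : ∀ n ∈ A, φ n = 1)
    (h0 : ∀ n, n ∉ A → φ n = 0) : HasDensity A ↔ Bv φ := by
  classical
  have h : ∀ M : Fin k → ℕ, (((Fintype.piFinset (fun j => Finset.range (M j))).filter
      (fun m => m ∈ A)).card : ℝ) / ∏ j, (M j : ℝ) = bav φ M := by
    intro M
    unfold bav
    have : ∑ m ∈ Fintype.piFinset (fun j => Finset.range (M j)), φ m =
        ∑ m ∈ Fintype.piFinset (fun j => Finset.range (M j)), if m ∈ A then (1 : ℝ) else 0 := by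
      refine sum_congr rfl fun n _ => ?_
      by_cases hn : n ∈ A
      · rw [if_pos hn, h1 n hn]
      · rw [if_neg hn, h0 n hn]
    rw [this, sum_boole, div_eq_inv_mul]
  unfold HasDensity Bv
  constructor
  · rintro ⟨L, hL⟩
    refine ⟨L, hL.congr fun N => ?_⟩
    rw [← h N]
  · rintro ⟨L, hL⟩
    refine ⟨L, hL.congr fun N => ?_⟩
    rw [← h N]

open Pool.Agent.U946.BP Pool.Agent.U946.RS in
lemma prod_iff {X : Type} {k n : ℕ} (A : Fin n → Set X) (S : Fin n → (Fin k → ℕ) → X → X) (x : X) :
    HasDensity {m | ∀ j, S j m x ∈ A j} ↔ Bv fun m => ∏ j, ind (A j) (S j m x) := by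
  refine density_iff _ _ ?_ ?_
  · intro m hm
    refine prod_eq_one fun j _ => ?_
    exact Set.indicator_of_mem (hm j) _
  · intro m hm
    have hm' : ¬ ∀ j, S j m x ∈ A j := hm
    push Not at hm'
    obtain ⟨j, hj⟩ := hm'
    refine prod_eq_zero (mem_univ j) ?_
    exact Set.indicator_of_notMem hj _

lemma oneSet_of_q1 (h : Q1) : OneSet := by
  intro d k n X _ μ _ T hT hn P E hE
  have h1 := h d k n X μ T hT hn P (fun _ => Pool.Agent.U946.BP.ind E) fun j =>
    memLp_top_of_bound (Pool.Agent.U946.BP.ind_meas hE).aestronglyMeasurable 1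
      (ae_of_all _ fun x => Pool.Agent.U946.BP.ind_bd E x)
  filter_upwards [h1] with x hx
  exact (prod_iff (fun _ => E) (fun j m x => word T (fun i => P i j) m x) x).2 hx

/-- the translations -/
def tr (G : Type) [Group G] : G →* Equiv.Perm (G → Bool) where
  toFun g :=
    { toFun := fun R h => R (h * g)
      invFun := fun R h => R (h * g⁻¹)
      left_inv := fun R => by funext h; simp
      right_inv := fun R => by funext h; simp }
  map_one' := by
    apply Equiv.ext
    intro R
    funext h
    simp
  map_mul' g g' := by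
    apply Equiv.ext
    intro R
    funext h
    simp [mul_assoc]

lemma random_of_oneSet (h : OneSet) : Random := by
  intro G _ hG d k n t P ν hν
  have := hν.1
  have hcl : Subgroup.closure (Set.range fun i => tr G (t i)) = (Subgroup.closure (Set.range t)).map (tr G) := by
    rw [MonoidHom.map_closure]
    congr 1
    ext σ
    simp only [Set.mem_range, Set.mem_image]
    constructor
    · rintro ⟨i, rfl⟩
      exact ⟨t i, ⟨i, rfl⟩, rfl⟩
    · rintro ⟨-, ⟨i, rfl⟩, rfl⟩
      exact ⟨i, rfl⟩
  have hnil : Group.IsNilpotent ↥(Subgroup.closure (Set.range fun i => tr G (t i))) := by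
    rw [hcl]
    exact Group.nilpotent_of_surjective ((tr G).subgroupMap (Subgroup.closure (Set.range t)))
      (MonoidHom.subgroupMap_surjective _ _)
  have hE : MeasurableSet {R : G → Bool | R 1 = true} :=
    measurableSet_eq_fun (measurable_pi_apply 1) measurable_const
  have h1 := h d k n (G → Bool) ν (fun i => tr G (t i)) (fun i => ⟨(hν.2 (t i)).measurable,
    measurable_pi_iff.2 fun h => measurable_pi_apply (h * (t i)⁻¹), hν.2 (t i)⟩) hnil P _ hE
  filter_upwards [h1] with R hR
  have h2 : ∀ (j : Fin n) (m : Fin k → ℕ),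
      (word (fun i => tr G (t i)) (fun i => P i j) m) R 1 = R (word t (fun i => P i j) m) := by
    intro j m
    rw [← Pool.Agent.U946.RS.map_word]
    show R (1 * _) = _
    rw [one_mul]
  have h3 : HasDensity {m | ∀ j, (word (fun i => tr G (t i)) (fun i => P i j) m) R 1 = true} := hR
  simp only [h2] at h3
  exact h3

open Pool.Agent.U946.RS in
lemma q1_of_free (h : RandomFree) : Q1 := by
  intro d k n X _ μ _ T hT hnil P f hf
  choose f' hf'm hf'b hff' using fun j => Pool.Agent.U946.BP.exists_version (hf j)
  have hHa : Subgroup.closure (Set.range T) ≤ autG μ := by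
    rw [Subgroup.closure_le]
    rintro _ ⟨i, rfl⟩
    exact mem_autG (hT i).1 (hT i).2.1 (hT i).2.2
  have hTH : ∀ i, T i ∈ Subgroup.closure (Set.range T) := fun i => Subgroup.subset_closure ⟨i, rfl⟩
  have hword : ∀ (j : Fin n) (m : Fin k → ℕ), MeasurePreserving (fun x => word T (fun i => P i j) m x) μ μ :=
    fun j m => (hHa (word_mem hTH _ m)).1
  -- three steps: sets, one set, random subset
  have hsets : ∀ A : Fin n → Set X, (∀ j, MeasurableSet (A j)) → ∀ᵐ x ∂μ,
      Bv fun m => ∏ j, Pool.Agent.U946.BP.ind (A j) (word T (fun i => P i j) m x) := by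
    intro A hA
    obtain ⟨s, hs⟩ := (Subgroup.nilpotent_iff_lowerCentralSeries
      (G := Multiplicative (ZMod (n + 1)) × Subgroup.closure (Set.range T))).1 inferInstance
    obtain ⟨π, hπ⟩ := exists_hom hs (tp (n := n) T hTH)
    have hmp : ∀ g : FreeNil (d + 1) s, MeasurePreserving
        (fun y => ((act (n + 1) (Subgroup.closure (Set.range T))).comp π) g y)
        ((Pool.Agent.U946.BP.ru (n + 1)).prod μ) ((Pool.Agent.U946.BP.ru (n + 1)).prod μ) := fun g =>
      act_mp (n + 1) (fun σ hσ => (hHa hσ).1) (π g)
    let E : Set (ZMod (n + 1) × X) := ⋃ j : Fin n, ({(((j : ℕ) : ZMod (n + 1)))} : Set (ZMod (n + 1))) ×ˢ A j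
    have hE : MeasurableSet E := MeasurableSet.iUnion fun j => (measurableSet_singleton _).prod (hA j)
    have h1 := of_random hmp hE
      (Q := fun R => HasDensity {m | ∀ j, R (word (gen (d + 1) s) (fun i => pp P i j) m) = true})
      (fun ν hν hinv => h (d + 1) s k n (pp P) ν ⟨hν, hinv⟩)
    have h2 := Measure.ae_ae_of_ae_prod h1
    have h3 : ∀ᵐ x ∂μ, HasDensity {m | ∀ j, code ((act (n + 1) (Subgroup.closure (Set.range T))).comp π) E
        ((0 : ZMod (n + 1)), x) (word (gen (d + 1) s) (fun i => pp P i j) m) = true} := by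
      by_contra hcon
      have h7 : Pool.Agent.U946.BP.ru (n + 1) {(0 : ZMod (n + 1))} = 0 := by
        refine measure_mono_null ?_ (ae_iff.1 h2)
        intro r hr
        rw [Set.mem_singleton_iff] at hr
        subst hr
        exact hcon
      rw [Pool.Agent.U946.BP.ru_singleton] at h7
      simp at h7
    filter_upwards [h3] with x hx
    rw [← prod_iff A (fun j m x => word T (fun i => P i j) m x) x]
    have h4 : {m | ∀ j, code ((act (n + 1) (Subgroup.closure (Set.range T))).comp π) E
        ((0 : ZMod (n + 1)), x) (word (gen (d + 1) s) (fun i => pp P i j) m) = true} =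
        {m | ∀ j, word T (fun i => P i j) m x ∈ A j} := by
      ext m
      have h5 : ∀ j, code ((act (n + 1) (Subgroup.closure (Set.range T))).comp π) E
          ((0 : ZMod (n + 1)), x) (word (gen (d + 1) s) (fun i => pp P i j) m) = true ↔
          word T (fun i => P i j) m x ∈ A j := by
        intro j
        rw [code_true, MonoidHom.comp_apply, map_word π]
        simp only [hπ]
        have h6 : act (n + 1) (Subgroup.closure (Set.range T)) (word (tp (n := n) T hTH) (fun i => pp P i j) m)
            ((0 : ZMod (n + 1)), x) = (((j : ℕ) : ZMod (n + 1)), word T (fun i => P i j) m x) := by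
          show ((0 : ZMod (n + 1)) + (word (tp (n := n) T hTH) (fun i => pp P i j) m).1.toAdd,
            ((word (tp (n := n) T hTH) (fun i => pp P i j) m).2 : Equiv.Perm X) x) = _
          rw [word_fst, word_snd, toAdd_ofAdd, zero_add]
        rw [h6]
        constructor
        · intro hm
          obtain ⟨i, hi1, hi2⟩ := Set.mem_iUnion.1 hm
          have h7 : ((j : ℕ) : ZMod (n + 1)) = ((i : ℕ) : ZMod (n + 1)) := hi1
          rw [ZMod.natCast_eq_natCast_iff', Nat.mod_eq_of_lt (by omega), Nat.mod_eq_of_lt (by omega)] at h7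
          have h8 : j = i := Fin.ext h7
          rw [h8]
          rw [h8] at hi2
          exact hi2
        · intro hm
          exact Set.mem_iUnion.2 ⟨j, rfl, hm⟩
      constructor
      · intro hm j
        exact (h5 j).1 (hm j)
      · intro hm j
        exact (h5 j).2 (hm j)
    rw [← h4]
    exact hx
  have h9 := multi (fun j m x => word T (fun i => P i j) m x) hsets f' hf'm hf'b
  have h10 : ∀ᵐ x ∂μ, ∀ (m : Fin k → ℕ) (j : Fin n), f j (word T (fun i => P i j) m x) =
      f' j (word T (fun i => P i j) m x) := by
    rw [ae_all_iff]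
    intro m
    rw [ae_all_iff]
    intro j
    exact (hword j m).quasiMeasurePreserving.ae (hff' j)
  filter_upwards [h9, h10] with x hx hx2
  obtain ⟨L, hL⟩ := hx
  refine ⟨L, hL.congr fun M => ?_⟩
  unfold bav
  congr 1
  exact sum_congr rfl fun m _ => prod_congr rfl fun j _ => (hx2 m j).symm

/-- **The conjecture is a question about random subsets of free nilpotent groups.** -/
theorem result : [Q1, OneSet, Random, RandomFree].TFAE := by
  tfae_have 1 → 2 := oneSet_of_q1
  tfae_have 2 → 3 := random_of_oneSet
  tfae_have 3 → 4 := fun h d s k n P ν hν =>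
    h (FreeNil d s) (Pool.Agent.U946.RS.freeNil_nilpotent d s) d k n (gen d s) P ν hν
  tfae_have 4 → 1 := q1_of_free
  tfae_finish

end Pool.Agent.Results.MP_f720ae_an.RandomSubsets
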